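import Pool.Agent.H68.CK.Wfg3

/-! The minimal normal subgroup is not abelian: end of the proof. -/

namespace H36.CH

open Subgroup Pointwise

section

variable {G : Type*} [Group G] {A A0 P B B0 Q : Subgroup G}

theorem Cfg.exists_prime_order (h : Cfg A A0 P B B0 Q) :
    ∃ q : ℕ, q.Prime ∧ ∃ x ∈ P, x ≠ 1 ∧ x ^ q = 1 := by
  have hne : P ≠ ⊥ := by
    intro h0
    have h1 := h.infP
    rw [h0, Subgroup.coe_bot] at h1
    exact h1 (Set.finite_singleton 1)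
  obtain ⟨x, hx, hx1⟩ : ∃ x ∈ P, x ≠ 1 := by
    by_contra hcon
    push Not at hcon
    exact hne ((Subgroup.eq_bot_iff_forall _).mpr hcon)
  obtain ⟨n, hn, hn1⟩ := h.hyp.sa.dp.dc.torsion hx
  have hfo : IsOfFinOrder (x : G) := isOfFinOrder_iff_pow_eq_one.mpr ⟨n, hn, hn1⟩
  have ho : 0 < orderOf (x : G) := hfo.orderOf_pos
  have ho1 : orderOf (x : G) ≠ 1 := fun h2 => hx1 (orderOf_eq_one_iff.mp h2)
  set q := (orderOf (x : G)).minFac with hq
  have hqp : q.Prime := Nat.minFac_prime ho1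
  have hdvd : q ∣ orderOf (x : G) := Nat.minFac_dvd _
  refine ⟨q, hqp, (x : G) ^ (orderOf (x : G) / q), P.pow_mem hx _, ?_, ?_⟩
  · intro h2
    have h3 := orderOf_dvd_of_pow_eq_one h2
    have h4 := Nat.le_of_dvd (Nat.div_pos (Nat.le_of_dvd ho hdvd) hqp.pos) h3
    have h5 := Nat.div_lt_self ho hqp.one_lt
    omega
  · rw [← pow_mul, Nat.div_mul_cancel hdvd, pow_orderOf_eq_one]

/-- A finite `q`-group has fixed points in an abelian group of exponent `q`. -/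
theorem exists_fixed {W X : Subgroup G} {q : ℕ} (hq : q.Prime)
    (hc : ∀ a ∈ W, ∀ b ∈ W, a * b = b * a) (hW : ∀ w ∈ W, w ^ q = 1)
    (hXfin : (X : Set G).Finite) (hX : ∀ x ∈ X, x ^ q = 1)
    (hXW : ∀ x ∈ X, ∀ w ∈ W, x * w * x⁻¹ ∈ W) {w : G} (hw : w ∈ W) (hw1 : w ≠ 1) :
    ∃ b ∈ W, b ≠ 1 ∧ ∀ x ∈ X, x * b = b * x := by
  classical
  have hqf : Fact q.Prime := ⟨hq⟩
  set E : Finset G := hXfin.toFinset.image (fun x => x * w * x⁻¹) with hE
  have hEW : ∀ y ∈ E, y ∈ W := by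
    intro y hy
    rw [hE, Finset.mem_image] at hy
    obtain ⟨x, hx, rfl⟩ := hy
    exact hXW x (hXfin.mem_toFinset.mp hx) w hw
  have hVfin := finite_closure hc (fun v hv => ⟨q, hq.pos, hW v hv⟩) E hEW
  set V := Subgroup.closure (E : Set G) with hV
  have hVW : V ≤ W := by
    rw [hV, Subgroup.closure_le]
    intro y hy
    exact hEW y hy
  have hVX : ∀ x ∈ X, ∀ v ∈ V, x * v * x⁻¹ ∈ V := by
    intro x hx
    have h1 : V ≤ V.comap (MulAut.conj x).toMonoidHom := by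
      conv_lhs => rw [hV]
      rw [Subgroup.closure_le]
      intro y hy
      rw [Finset.mem_coe, hE, Finset.mem_image] at hy
      obtain ⟨z, hz, rfl⟩ := hy
      show x * (z * w * z⁻¹) * x⁻¹ ∈ V
      refine Subgroup.subset_closure ?_
      rw [Finset.mem_coe, hE, Finset.mem_image]
      refine ⟨x * z, ?_, by group⟩
      rw [Set.Finite.mem_toFinset] at hz ⊢
      exact X.mul_mem hx hz
    intro v hv
    exact h1 hv
  have hwV : w ∈ V := by
    refine Subgroup.subset_closure ?_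
    rw [Finset.mem_coe, hE, Finset.mem_image]
    refine ⟨1, ?_, by group⟩
    rw [Set.Finite.mem_toFinset]
    exact X.one_mem
  let _ : MulAction ↥X ↥V :=
    { smul := fun x v => ⟨x * v * (x : G)⁻¹, hVX x x.2 v v.2⟩
      one_smul := fun v => Subtype.ext (by
        show ((1 : ↥X) : G) * v * ((1 : ↥X) : G)⁻¹ = v
        rw [Subgroup.coe_one]; group)
      mul_smul := fun x y v => Subtype.ext (by
        show ((x * y : ↥X) : G) * v * ((x * y : ↥X) : G)⁻¹ =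
          (x : G) * ((y : G) * v * (y : G)⁻¹) * (x : G)⁻¹
        rw [Subgroup.coe_mul]; group) }
  have hsmul : ∀ (x : ↥X) (v : ↥V), ((x • v : ↥V) : G) = x * v * (x : G)⁻¹ := fun _ _ => rfl
  have hXp : IsPGroup q ↥X := by
    intro x
    refine ⟨1, Subtype.ext ?_⟩
    rw [Subgroup.coe_pow, pow_one]
    exact hX x x.2
  have hdvd : q ∣ Nat.card ↥V := by
    have h1 : orderOf (⟨w, hwV⟩ : ↥V) = q := by
      refine orderOf_eq_prime (Subtype.ext ?_) ?_
      · rw [Subgroup.coe_pow]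
        exact hW w hw
      · intro h2
        exact hw1 (congrArg Subtype.val h2)
    rw [← h1]
    exact orderOf_dvd_natCard _
  have hone : (1 : ↥V) ∈ MulAction.fixedPoints ↥X ↥V := by
    intro x
    apply Subtype.ext
    rw [hsmul, Subgroup.coe_one, mul_one, mul_inv_cancel]
  obtain ⟨b, hb, hb1⟩ :=
    hXp.exists_fixed_point_of_prime_dvd_card_of_fixed_point ↥V hdvd hone
  refine ⟨b, hVW b.2, ?_, ?_⟩
  · intro h2
    exact hb1 (Subtype.ext h2.symm)
  · intro x hx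
    have h3 := congrArg Subtype.val (hb ⟨x, hx⟩)
    rw [hsmul] at h3
    have h4 : x * (b : G) * x⁻¹ = b := h3
    calc x * (b : G) = (x * (b : G) * x⁻¹) * x := by group
      _ = (b : G) * x := by rw [h4]

/-- Averaging over a finite group whose order acts bijectively. -/
theorem exists_average {W X Q : Subgroup G} [W.Normal] (hc : ∀ a ∈ W, ∀ b ∈ W, a * b = b * a)
    (hXfin : (X : Set G).Finite) (hinj : ∀ w ∈ W, w ^ Nat.card ↥X = 1 → w = 1)
    (hsurj : ∀ s ∈ W, ∃ w ∈ W, w ^ Nat.card ↥X = s)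
    (hQ : ∀ x ∈ X, ∃ y ∈ Q, x⁻¹ * y ∈ W) (hQW : ∀ w ∈ W, w ∈ Q → w = 1) :
    ∃ w ∈ W, ∀ x ∈ X, w⁻¹ * x * w ∈ Q := by
  classical
  have hf : Finite ↥X := hXfin
  have hft : Fintype ↥X := Fintype.ofFinite _
  let _ : CommGroup ↥W := { (inferInstance : Group ↥W) with
    mul_comm := fun a b => Subtype.ext (hc a a.2 b b.2) }
  choose y hyQ hyW using hQ
  let δ : ↥X → ↥W := fun x => ⟨(x : G)⁻¹ * y x x.2, hyW x x.2⟩
  have hymul : ∀ x x' : ↥X, y ((x * x' : ↥X) : G) (x * x').2 = y x x.2 * y x' x'.2 := by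
    intro x x'
    have h1 := hyW ((x * x' : ↥X) : G) (x * x').2
    have h2 : ((x * x' : ↥X) : G)⁻¹ * (y x x.2 * y x' x'.2) ∈ W := by
      have h3 : ((x * x' : ↥X) : G)⁻¹ * (y x x.2 * y x' x'.2) =
          ((x' : G)⁻¹ * ((x : G)⁻¹ * y x x.2) * (x' : G)) * ((x' : G)⁻¹ * y x' x'.2) := by
        rw [Subgroup.coe_mul]; group
      rw [h3]
      refine W.mul_mem ?_ (hyW x' x'.2)
      have h4 := (inferInstance : W.Normal).conj_mem _ (hyW x x.2) (x' : G)⁻¹
      rwa [inv_inv] at h4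
    have h3 : (y ((x * x' : ↥X) : G) (x * x').2)⁻¹ * (y x x.2 * y x' x'.2) ∈ W := by
      have h4 := W.mul_mem (W.inv_mem h1) h2
      have h5 : (((x * x' : ↥X) : G)⁻¹ * y ((x * x' : ↥X) : G) (x * x').2)⁻¹ *
          (((x * x' : ↥X) : G)⁻¹ * (y x x.2 * y x' x'.2)) =
          (y ((x * x' : ↥X) : G) (x * x').2)⁻¹ * (y x x.2 * y x' x'.2) := by group
      rwa [h5] at h4
    have h6 := hQW _ h3 (Q.mul_mem (Q.inv_mem (hyQ _ _)) (Q.mul_mem (hyQ _ _) (hyQ _ _)))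
    exact inv_mul_eq_one.mp h6
  let s : ↥W := ∏ x : ↥X, δ x
  obtain ⟨w, hw, hws⟩ := hsurj (s : G) s.2
  refine ⟨w, hw, ?_⟩
  intro x' hx'
  let φ : ↥W →* ↥W :=
    { toFun := fun v => ⟨x'⁻¹ * v * x', by
        have h4 := (inferInstance : W.Normal).conj_mem _ v.2 x'⁻¹
        rwa [inv_inv] at h4⟩
      map_one' := Subtype.ext (by
        show x'⁻¹ * ((1 : ↥W) : G) * x' = 1
        rw [Subgroup.coe_one]; group)
      map_mul' := fun u v => Subtype.ext (by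
        show x'⁻¹ * ((u * v : ↥W) : G) * x' = (x'⁻¹ * (u : G) * x') * (x'⁻¹ * (v : G) * x')
        rw [Subgroup.coe_mul]; group) }
  have hφ : ∀ v : ↥W, ((φ v : ↥W) : G) = x'⁻¹ * v * x' := fun _ => rfl
  have hder : ∀ x : ↥X, δ (x * ⟨x', hx'⟩) = φ (δ x) * δ ⟨x', hx'⟩ := by
    intro x
    apply Subtype.ext
    show ((x * ⟨x', hx'⟩ : ↥X) : G)⁻¹ * y ((x * ⟨x', hx'⟩ : ↥X) : G) (x * ⟨x', hx'⟩).2 =
      (x'⁻¹ * ((x : G)⁻¹ * y x x.2) * x') * (x'⁻¹ * y x' hx')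
    rw [hymul x ⟨x', hx'⟩, Subgroup.coe_mul]
    group
  have hs1 : s = φ s * δ ⟨x', hx'⟩ ^ Nat.card ↥X := by
    calc s = ∏ x : ↥X, δ (x * ⟨x', hx'⟩) :=
        (Fintype.prod_equiv (Equiv.mulRight (⟨x', hx'⟩ : ↥X)) _ _ (fun x => rfl)).symm
      _ = ∏ x : ↥X, (φ (δ x) * δ ⟨x', hx'⟩) := Finset.prod_congr rfl (fun x _ => hder x)
      _ = (∏ x : ↥X, φ (δ x)) * ∏ _x : ↥X, δ ⟨x', hx'⟩ := Finset.prod_mul_distrib
      _ = φ s * δ ⟨x', hx'⟩ ^ Nat.card ↥X := by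
        rw [map_prod, Finset.prod_const, Finset.card_univ, Nat.card_eq_fintype_card]
  let w' : ↥W := ⟨w, hw⟩
  have hws' : w' ^ Nat.card ↥X = s := Subtype.ext (by rw [Subgroup.coe_pow]; exact hws)
  have hkey : δ ⟨x', hx'⟩ = w' * (φ w')⁻¹ := by
    have h1 : ((δ ⟨x', hx'⟩) * (w' * (φ w')⁻¹)⁻¹) ^ Nat.card ↥X = 1 := by
      rw [mul_pow, inv_pow, mul_pow, inv_pow, ← map_pow, hws']
      have h2 : δ ⟨x', hx'⟩ ^ Nat.card ↥X = (φ s)⁻¹ * s := by
        rw [eq_inv_mul_iff_mul_eq]; exact hs1.symm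
      rw [h2, mul_inv_rev, inv_inv]
      rw [mul_comm (φ s)⁻¹ s, mul_assoc, ← mul_assoc (φ s)⁻¹, inv_mul_cancel, one_mul,
        mul_inv_cancel]
    have h2 := hinj _ ((δ ⟨x', hx'⟩) * (w' * (φ w')⁻¹)⁻¹ : ↥W).2 (by
      rw [← Subgroup.coe_pow, h1, Subgroup.coe_one])
    have h3 : (δ ⟨x', hx'⟩) * (w' * (φ w')⁻¹)⁻¹ = 1 := Subtype.ext h2
    exact mul_inv_eq_one.mp h3
  have hkey2 : x'⁻¹ * y x' hx' = w * (x'⁻¹ * w * x')⁻¹ := congrArg Subtype.val hkey
  have hcomm := hc w hw (x'⁻¹ * w * x')⁻¹ (W.inv_mem (φ w').2)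
  have hfin : w⁻¹ * x' * w = y x' hx' := by
    have h5 : y x' hx' = x' * ((x'⁻¹ * w * x')⁻¹ * w) := by
      rw [← hcomm, ← hkey2]; group
    rw [h5]; group
  rw [hfin]
  exact hyQ x' hx'

theorem Cfg.WW_not_comm (h : Cfg A A0 P B B0 Q)
    (hc : ∀ a ∈ WW P Q, ∀ b ∈ WW P Q, a * b = b * a) : False := by
  classical
  obtain ⟨q, hq, x0, hx0, hx01, hx0q⟩ := h.exists_prime_order
  set X := OmP P h.hyp.sa.dp.dc.comm q with hX
  have hXA0 : X ≤ A0 := fun x hx => h.hyp.sa.le_A0 (mem_OmP.mp hx).1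
  have hXne : X ≠ ⊥ := by
    intro h0
    have h1 : x0 ∈ X := mem_OmP.mpr ⟨hx0, hx0q⟩
    rw [h0, Subgroup.mem_bot] at h1
    exact hx01 h1
  have hXA : A ≤ Nz X := OmP_Nz _ q h.hyp.sa.dp.le_Nz
  have hXfin : (X : Set G).Finite := h.hyp.sa.dp.dc.fin_tors q hq.pos
  have hXq : ∀ x ∈ X, x ^ q = 1 := fun x hx => (mem_OmP.mp hx).2
  by_cases hexp : ∀ w ∈ WW P Q, w ^ q = 1
  · obtain ⟨w, hw, hw1⟩ : ∃ w ∈ WW P Q, w ≠ 1 := by
      by_contra hcon
      push Not at hcon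
      exact h.WW_ne ((Subgroup.eq_bot_iff_forall _).mpr hcon)
    obtain ⟨b, hb, hb1, hbX⟩ := exists_fixed hq hc hexp hXfin hXq
      (fun x _ w hw => WW_normal.conj_mem w hw x) hw hw1
    exact hb1 (h.no_fix hc hXA0 hXne hXA hb hbX)
  · push Not at hexp
    obtain ⟨w1, hw1, hw1q⟩ := hexp
    -- the kernel of the power map
    have hinj1 : ∀ w ∈ WW P Q, w ^ q = 1 → w = 1 := by
      intro w hw hwq
      by_contra hwne
      have hn : (OmP (WW P Q) hc q).Normal := h.normal_of_A hc (fun x hx => (mem_OmP.mp hx).1)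
        (OmP_Nz hc q (fun a _ x hx => ⟨WW_normal.conj_mem x hx a, by
          have h2 := WW_normal (P := P) (Q := Q) |>.conj_mem x hx a⁻¹
          rwa [inv_inv] at h2⟩))
      have hne : OmP (WW P Q) hc q ≠ ⊥ := by
        intro h0
        have h1 : w ∈ OmP (WW P Q) hc q := mem_OmP.mpr ⟨hw, hwq⟩
        rw [h0, Subgroup.mem_bot] at h1
        exact hwne h1
      exact hw1q (mem_OmP.mp (h.WW_le hn hne hw1)).2
    -- the image of the power map
    have hsurj1 : ∀ s ∈ WW P Q, ∃ w ∈ WW P Q, w ^ q = s := by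
      let D : Subgroup G :=
        { carrier := {s | ∃ w ∈ WW P Q, w ^ q = s}
          one_mem' := ⟨1, (WW P Q).one_mem, one_pow q⟩
          mul_mem' := by
            rintro _ _ ⟨u, hu, rfl⟩ ⟨v, hv, rfl⟩
            exact ⟨u * v, (WW P Q).mul_mem hu hv,
              (show Commute u v from hc u hu v hv).mul_pow q⟩
          inv_mem' := by
            rintro _ ⟨u, hu, rfl⟩
            exact ⟨u⁻¹, (WW P Q).inv_mem hu, inv_pow u q⟩ }
      have hn : D.Normal := by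
        refine ⟨?_⟩
        rintro _ ⟨u, hu, rfl⟩ g
        exact ⟨g * u * g⁻¹, WW_normal.conj_mem u hu g, conj_pow⟩
      have hne : D ≠ ⊥ := by
        intro h0
        have h1 : w1 ^ q ∈ D := ⟨w1, hw1, rfl⟩
        rw [h0, Subgroup.mem_bot] at h1
        exact hw1q h1
      intro s hs
      exact h.WW_le hn hne hs
    have hinjk : ∀ k : ℕ, ∀ w ∈ WW P Q, w ^ q ^ k = 1 → w = 1 := by
      intro k
      induction k with
      | zero => intro w _ hw2; simpa using hw2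
      | succ k ih =>
        intro w hw hw2
        rw [pow_succ, pow_mul] at hw2
        exact ih w hw (hinj1 _ ((WW P Q).pow_mem hw _) hw2)
    have hsurjk : ∀ k : ℕ, ∀ s ∈ WW P Q, ∃ w ∈ WW P Q, w ^ q ^ k = s := by
      intro k
      induction k with
      | zero => intro s hs; exact ⟨s, hs, by simp⟩
      | succ k ih =>
        intro s hs
        obtain ⟨u, hu, hu1⟩ := hsurj1 s hs
        obtain ⟨v, hv, hv1⟩ := ih u hu
        exact ⟨v, hv, by rw [pow_succ, pow_mul, hv1, hu1]⟩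
    have hfX : Finite ↥X := hXfin
    have hqf : Fact q.Prime := ⟨hq⟩
    have hXp : IsPGroup q ↥X := by
      intro x
      refine ⟨1, Subtype.ext ?_⟩
      rw [Subgroup.coe_pow, pow_one]
      exact hXq x x.2
    obtain ⟨k, hk⟩ := IsPGroup.iff_card.mp hXp
    -- `P` and `Q` have the same image modulo `W`
    have hPQ : ∀ x ∈ P, ∃ y ∈ Q, x⁻¹ * y ∈ WW P Q := by
      have htB := h.symm.sup_normal_top (WW P Q) WW_normal h.WW_ne
      set f := QuotientGroup.mk' (WW P Q) with hf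
      have hfs : Function.Surjective f := QuotientGroup.mk'_surjective (WW P Q)
      have hker : (WW P Q).map f = ⊥ := by
        rw [Subgroup.map_eq_bot_iff, hf, QuotientGroup.ker_mk']
      have hB : B.map f = ⊤ := by
        have h1 : (B ⊔ WW P Q).map f = ⊤ := by rw [htB, Subgroup.map_top_of_surjective f hfs]
        rwa [Subgroup.map_sup, hker, sup_bot_eq] at h1
      have hDP := h.hyp.sa.dp.map f
      have hDQ := h.hyp.sb.dp.map f
      have hPQ : P.map f ≤ Q.map f := by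
        refine hDP.dc.le_of_relIndex ?_
        intro h0
        have h1 := hDQ.fin
        rw [hB] at h1
        exact h1 (Subgroup.relIndex_eq_zero_of_le_right le_top h0)
      intro x hx
      obtain ⟨y, hy, hyx⟩ := hPQ ⟨x, hx, rfl⟩
      refine ⟨y, hy, ?_⟩
      rw [← QuotientGroup.eq_one_iff]
      show f (x⁻¹ * y) = 1
      rw [map_mul, map_inv, hyx, inv_mul_cancel]
    obtain ⟨w, hw, hwX⟩ := exists_average (W := WW P Q) (X := X) (Q := Q) hc hXfin
      (by rw [hk]; exact hinjk k) (by rw [hk]; exact hsurjk k)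
      (fun x hx => hPQ x (mem_OmP.mp hx).1)
      (fun v hv hvQ => h.WW_inf_B hc hv (h.hyp.sb.dp.le hvQ))
    obtain ⟨a, ha, b, hb, hab⟩ := h.hyp.fac w
    have h1 : x0 ∈ X := mem_OmP.mpr ⟨hx0, hx0q⟩
    have h2 := hwX _ (hXA ha x0 h1).1
    have h3 : w⁻¹ * (a * x0 * a⁻¹) * w = b⁻¹ * x0 * b := by rw [hab]; group
    rw [h3] at h2
    have h4 := (h.hyp.sb.dp.le_Nz hb _ h2).1
    have h5 : b * (b⁻¹ * x0 * b) * b⁻¹ = x0 := by group
    rw [h5] at h4
    exact hx01 (h.inf0 (h.hyp.sa.le_A0 hx0) (h.hyp.sb.le_A0 h4))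

end

end H36.CH
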