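import Pool.Agent.H68.CK.Wfg2
import Pool.Agent.H68.CK.Wfg4

/-! The finitely generated minimal normal subgroup of a minimal configuration. -/

namespace H36.CH

open Subgroup Pointwise
open scoped commutatorElement

/-- If `LL P Q n` is normal and nontrivial then the minimal normal subgroup is finitely
generated. -/
theorem Cfg.WW_fg_of_normal {G : Type} [Group G] {A A0 P B B0 Q : Subgroup G}
    (h : Cfg A A0 P B B0 Q) {n : ℕ} (hn : 0 < n) (hN : (LL P Q n).Normal)
    (hne : LL P Q n ≠ ⊥) : (WW P Q).FG := by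
  classical
  have hle := h.WW_le hN hne
  have htop := h.sup_normal_top (WW P Q) WW_normal h.WW_ne
  -- representatives in `A` of the generators
  have hrep : ∀ g : G, ∃ a ∈ A, a⁻¹ * g ∈ WW P Q := by
    intro g
    have hg : g ∈ A ⊔ WW P Q := by rw [htop]; exact Subgroup.mem_top g
    obtain ⟨a, ha, w, hw, haw⟩ := Subgroup.mem_sup_of_normal_right.mp hg
    exact ⟨a, ha, by rw [← haw, inv_mul_cancel_left]; exact hw⟩
  choose r hrA hrW using hrep
  set T := (h.hyp.TT_finite hn).toFinset with hT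
  obtain ⟨F, hSF, hFA, hFmul, hFinv⟩ := h.hyp.sa.locfin (T.image r) (by
    intro x hx
    rw [Finset.mem_image] at hx
    obtain ⟨g, -, rfl⟩ := hx
    exact hrA g)
  by_cases hTe : T.Nonempty
  · obtain ⟨g0, hg0⟩ := hTe
    have hF1 : (1 : G) ∈ F := by
      have h1 : r g0 ∈ F := hSF (Finset.mem_image_of_mem r hg0)
      have h2 := hFmul _ h1 _ (hFinv _ h1)
      rwa [mul_inv_cancel] at h2
    have hmem : ∀ g ∈ LL P Q n, ∃ c ∈ F, c⁻¹ * g ∈ WW P Q := by
      let R : Subgroup G :=
        { carrier := {g | ∃ c ∈ F, c⁻¹ * g ∈ WW P Q}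
          one_mem' := ⟨1, hF1, by rw [inv_one, one_mul]; exact (WW P Q).one_mem⟩
          mul_mem' := by
            rintro x y ⟨c, hc, hx⟩ ⟨d, hd, hy⟩
            refine ⟨c * d, hFmul c hc d hd, ?_⟩
            have h1 : (c * d)⁻¹ * (x * y) = (d⁻¹ * (c⁻¹ * x) * d) * (d⁻¹ * y) := by group
            rw [h1]
            refine (WW P Q).mul_mem ?_ hy
            have h2 := WW_normal (P := P) (Q := Q) |>.conj_mem _ hx d⁻¹
            rwa [inv_inv] at h2
          inv_mem' := by
            rintro x ⟨c, hc, hx⟩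
            refine ⟨c⁻¹, hFinv c hc, ?_⟩
            have h1 : (c⁻¹)⁻¹ * x⁻¹ = c * (c⁻¹ * x)⁻¹ * c⁻¹ := by group
            rw [h1]
            exact WW_normal.conj_mem _ ((WW P Q).inv_mem hx) c }
      have hR : LL P Q n ≤ R := by
        rw [LL, Subgroup.closure_le]
        intro g hg
        refine ⟨r g, hSF (Finset.mem_image_of_mem r ?_), hrW g⟩
        rw [hT, Set.Finite.mem_toFinset]
        exact hg
      intro g hg
      exact hR hg
    have hrel : (WW P Q).relIndex (LL P Q n) ≠ 0 :=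
      relIndex_of_reps (F : Set G) F.finite_toSet hmem
    have hfi : ((WW P Q).subgroupOf (LL P Q n)).FiniteIndex := ⟨hrel⟩
    have hfg : Group.FG ↥(LL P Q n) := by
      rw [Group.fg_iff_subgroup_fg]
      exact h.hyp.LL_fg hn
    have hfg2 : Group.FG ↥((WW P Q).subgroupOf (LL P Q n)) := inferInstance
    rw [← Group.fg_iff_subgroup_fg]
    exact Group.fg_of_surjective (f := (Subgroup.subgroupOfEquivOfLe hle).toMonoidHom)
      (Subgroup.subgroupOfEquivOfLe hle).surjective
  · exfalso
    apply hne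
    rw [LL]
    have h1 : TT P Q n = ∅ := by
      rw [Set.eq_empty_iff_forall_notMem]
      intro x hx
      exact hTe ⟨x, by rw [hT, Set.Finite.mem_toFinset]; exact hx⟩
    rw [h1, Subgroup.closure_empty]

/-- The minimal normal subgroup is finitely generated. -/
theorem Cfg.WW_fg {G : Type} [Group G] {A A0 P B B0 Q : Subgroup G}
    (h : Cfg A A0 P B B0 Q) (hm : Mini A P B Q) : (WW P Q).FG := by
  by_cases hall : ∀ n : ℕ, 0 < n → (LL P Q n : Set G).Finite
  · exact (h.WW_not_comm (h.WW_comm (h.lfs hm hall))).elim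
  · push Not at hall
    obtain ⟨n, hn, hninf⟩ := hall
    rcases h.LL_cases hm hn with h1 | h1
    · refine h.WW_fg_of_normal hn h1 ?_
      intro h0
      apply hninf
      rw [h0, Subgroup.coe_bot]
      exact Set.finite_singleton 1
    · exact absurd h1.1 hninf

/-- The minimal normal subgroup of a minimal configuration. -/
theorem Cfg.exists_W {G : Type} [Group G] {A A0 P B B0 Q : Subgroup G}
    (h : Cfg A A0 P B B0 Q) (hm : Mini A P B Q) :
    ∃ W : Subgroup G, W.Normal ∧ W ≠ ⊥ ∧ W.FG ∧ (∀ N : Subgroup G, N.Normal → N ≠ ⊥ → W ≤ N) ∧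
      ⁅W, W⁆ = W ∧ A ⊔ W = ⊤ ∧ B ⊔ W = ⊤ ∧ Subgroup.centralizer (W : Set G) = ⊥ := by
  have hn : (WW P Q).Normal := WW_normal
  refine ⟨WW P Q, hn, h.WW_ne, h.WW_fg hm, fun N hN hN1 => h.WW_le hN hN1, ?_,
    h.sup_normal_top _ hn h.WW_ne, h.symm.sup_normal_top _ hn h.WW_ne, ?_⟩
  · refine le_antisymm (Subgroup.commutator_le_left _ _) (h.WW_le inferInstance ?_)
    intro h0
    rw [Subgroup.commutator_eq_bot_iff_le_centralizer] at h0
    refine h.WW_not_comm ?_
    intro a ha b hb
    have h1 := h0 ha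
    rw [Subgroup.mem_centralizer_iff] at h1
    exact (h1 b hb).symm
  · by_contra h0
    have hle := h.WW_le (N := Subgroup.centralizer (WW P Q : Set G))
      Subgroup.normal_centralizer h0
    refine h.WW_not_comm ?_
    intro a ha b hb
    have h1 := hle ha
    rw [Subgroup.mem_centralizer_iff] at h1
    exact (h1 b hb).symm

end H36.CH
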