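import Pool.Agent.H36.CH.Red3

/-! The reduction with the minimality of the configuration. -/

namespace H36.CH

open Subgroup Pointwise

/-- Factorised subgroups with a smaller divisible part have commuting divisible parts. -/
def Mini {G : Type*} [Group G] (A P B Q : Subgroup G) : Prop :=
  ∀ (L A' B' D E : Subgroup G), A' ≤ A → B' ≤ B → A' ≤ L → B' ≤ L →
    (∀ g ∈ L, ∃ a ∈ A', ∃ b ∈ B', g = a * b) → DP A' D → DP B' E → D ≤ P → E ≤ Q →
    (D < P ∨ E < Q) → ∀ x ∈ D, ∀ y ∈ E, x * y = y * x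

theorem Mini.symm {G : Type*} [Group G] {A P B Q : Subgroup G} (h : Mini A P B Q) :
    Mini B Q A P := by
  intro L A' B' D E h1 h2 h3 h4 h5 h6 h7 h8 h9 h10 x hx y hy
  refine (h L B' A' E D h2 h1 h4 h3 ?_ h7 h6 h9 h8 h10.symm y hy x hx).symm
  intro g hg
  obtain ⟨a, ha, b, hb, he⟩ := h5 g⁻¹ (L.inv_mem hg)
  refine ⟨b⁻¹, B'.inv_mem hb, a⁻¹, A'.inv_mem ha, ?_⟩
  rw [← mul_inv_rev, ← he, inv_inv]

theorem mini_of_below {C : ∀ (G : Type) [Group G], Subgroup G → Subgroup G → Subgroup G →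
    Subgroup G → Prop} (hC : Cls C) {n : ℕ} (hB : Below C n)
    {G : Type} [Group G] {A A0 P B B0 Q : Subgroup G} (h : Hyp A A0 P B B0 Q)
    (hc : C G A A0 B B0) (hn : rk P + rk Q ≤ n) : Mini A P B Q := by
  intro L A' B' D E hA' hB' hAL hBL hfac hD hE hDP hEQ hlt x hx y hy
  have sA : Side A' (A0 ⊓ A') D := h.sa.restrict hA' hD
  have sB : Side B' (B0 ⊓ B') E := h.sb.restrict hB' hE
  have hH := Hyp.sub hAL hBL hfac sA sB
  have hcc := hC.sub G A A0 B B0 A' B' L hc hA' hB' hAL hBL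
  have hr1 := (hD.dc.rk_subgroupOf_le (hD.le.trans hAL)).2
  have hr2 := (hE.dc.rk_subgroupOf_le (hE.le.trans hBL)).2
  have hDP' : rk D ≤ rk P := by
    rcases eq_or_lt_of_le hDP with h1 | h1
    · rw [h1]
    · exact (h.sa.dp.dc.rk_lt hD.dc h1).le
  have hEQ' : rk E ≤ rk Q := by
    rcases eq_or_lt_of_le hEQ with h1 | h1
    · rw [h1]
    · exact (h.sb.dp.dc.rk_lt hE.dc h1).le
  have hlt' : rk D + rk E < n := by
    rcases hlt with h1 | h1
    · have := h.sa.dp.dc.rk_lt hD.dc h1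
      omega
    · have := h.sb.dp.dc.rk_lt hE.dc h1
      omega
  have hcomm := hB ↥L _ _ _ _ _ _ hH hcc (by omega)
  exact congrArg Subtype.val (hcomm ⟨x, hAL (hD.le hx)⟩ hx ⟨y, hBL (hE.le hy)⟩ hy)

/-- The inductive step, for a normalised group. -/
theorem step_nrm' {C : ∀ (G : Type) [Group G], Subgroup G → Subgroup G → Subgroup G →
    Subgroup G → Prop} (hC : Cls C)
    (core : ∀ (G : Type) [Group G] (A A0 P B B0 Q : Subgroup G), Cfg A A0 P B B0 Q →
      Mini A P B Q → C G A A0 B B0 → False) {n : ℕ} (hB : Below C n)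
    {G : Type} [Group G] {A A0 P B B0 Q : Subgroup G} (h : Hyp A A0 P B B0 Q)
    (hc : C G A A0 B B0) (hn : rk P + rk Q ≤ n) (hnrmA : A ⊔ (P ⊔ Q) = ⊤)
    (hnrmB : B ⊔ (P ⊔ Q) = ⊤) (hnorm : (P ⊔ Q).Normal) :
    ∀ x ∈ P, ∀ y ∈ Q, x * y = y * x := by
  by_contra hne
  set Z := Subgroup.centralizer ((P ⊔ Q : Subgroup G) : Set G) with hZ
  have hZn : Z.Normal := Subgroup.normal_centralizer
  let f := QuotientGroup.mk' Z
  have hfs : Function.Surjective f := QuotientGroup.mk'_surjective Z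
  have hker : f.ker = Z := QuotientGroup.ker_mk' Z
  have hH' := h.map f hfs
  have hc' := hC.map G (G ⧸ Z) A A0 B B0 f hc
  have hne' := ne_quot (Z := Z) h.sa.dp.dc h.sb.dp.dc le_rfl hne
  have hrP := h.sa.dp.dc.rk_map_le f
  have hrQ := h.sb.dp.dc.rk_map_le f
  have hPZ : ((P ⊓ Z : Subgroup G) : Set G).Finite := by
    by_contra hinf
    have h1 := h.sa.dp.dc.rk_map_lt f (by rw [hker]; exact hinf)
    exact hne' (hB (G ⧸ Z) _ _ _ _ _ _ hH' hc'
      (lt_of_lt_of_le (Nat.add_lt_add_of_lt_of_le h1 hrQ) hn))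
  have hQZ : ((Q ⊓ Z : Subgroup G) : Set G).Finite := by
    by_contra hinf
    have h1 := h.sb.dp.dc.rk_map_lt f (by rw [hker]; exact hinf)
    exact hne' (hB (G ⧸ Z) _ _ _ _ _ _ hH' hc'
      (lt_of_lt_of_le (Nat.add_lt_add_of_le_of_lt hrP h1) hn))
  have hmaxA : ∀ L : Subgroup G, A ≤ L → L = ⊤ ∨ A.relIndex L ≠ 0 := by
    refine maxA hC hB h hc hn (hQZ.subset ?_) hnrmA
    rintro y ⟨hy, hy2⟩
    refine ⟨hy, ?_⟩
    show y ∈ Z
    have h3 : P ⊔ Q ≤ Subgroup.centralizer {y} := by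
      refine sup_le ?_ ?_
      · intro x hx
        rw [Subgroup.mem_centralizer_singleton_iff]
        exact hy2 x hx
      · intro x hx
        rw [Subgroup.mem_centralizer_singleton_iff]
        exact h.sb.dp.dc.comm x hx y hy
    rw [hZ, Subgroup.mem_centralizer_iff]
    intro x hx
    have h4 := h3 hx
    rw [Subgroup.mem_centralizer_singleton_iff] at h4
    exact h4
  have hZfin : (Z : Set G).Finite := Zfin h hmaxA hne hPZ
  have hcent := cent_quot (Z := Z) h.sa.dp.dc h.sb.dp.dc rfl hZfin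
  have htopA : A.map f ⊔ (P.map f ⊔ Q.map f) = ⊤ := by
    rw [← Subgroup.map_sup, ← Subgroup.map_sup, hnrmA, Subgroup.map_top_of_surjective f hfs]
  have htopB : B.map f ⊔ (P.map f ⊔ Q.map f) = ⊤ := by
    rw [← Subgroup.map_sup, ← Subgroup.map_sup, hnrmB, Subgroup.map_top_of_surjective f hfs]
  refine core (G ⧸ Z) (A.map f) (A0.map f) (P.map f) (B.map f) (B0.map f) (Q.map f)
    ⟨hH', ?_, ?_, hcent, hne'⟩ (mini_of_below hC hB hH' hc' (by omega)) hc'
  · refine maxA hC hB hH' hc' (by omega) (Set.Finite.subset (Set.finite_singleton 1) ?_) htopA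
    rintro y ⟨hy, hy2⟩
    rw [Set.mem_singleton_iff]
    exact hcent y (fun x hx => (hy2 x hx).symm) (fun x hx => hH'.sb.dp.dc.comm y hy x hx)
  · refine maxA hC.symm hB.symm hH'.symm hc' (by omega)
      (Set.Finite.subset (Set.finite_singleton 1) ?_) (by rw [sup_comm (Q.map f)]; exact htopB)
    rintro y ⟨hy, hy2⟩
    rw [Set.mem_singleton_iff]
    exact hcent y (fun x hx => hH'.sa.dp.dc.comm y hy x hx) (fun x hx => (hy2 x hx).symm)

/-- The inductive step. -/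
theorem step' {C : ∀ (G : Type) [Group G], Subgroup G → Subgroup G → Subgroup G →
    Subgroup G → Prop} (hC : Cls C)
    (core : ∀ (G : Type) [Group G] (A A0 P B B0 Q : Subgroup G), Cfg A A0 P B B0 Q →
      Mini A P B Q → C G A A0 B B0 → False) {n : ℕ} (hB : Below C n) : Below C (n + 1) := by
  intro G _ A A0 P B B0 Q h hc hn
  have hidx : (P ⊔ Q).index ≠ 0 := index_sup_ne_zero h.fac h.sa.dp.fin h.sb.dp.fin
  have hnorm : (P ⊔ Q).Normal := sup_normal h.sa.dp.dc h.sb.dp.dc hidx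
  set H := P ⊔ Q with hH
  set L := (A ⊔ H) ⊓ (B ⊔ H) with hL
  set A1 := A ⊓ (B ⊔ H) with hA1
  set B1 := B ⊓ (A ⊔ H) with hB1
  have hPH : P ≤ H := le_sup_left
  have hQH : Q ≤ H := le_sup_right
  have hHL : H ≤ L := le_inf le_sup_right le_sup_right
  have hA1L : A1 ≤ L := le_inf (inf_le_left.trans le_sup_left) inf_le_right
  have hB1L : B1 ≤ L := le_inf inf_le_right (inf_le_left.trans le_sup_left)
  have hPA1 : P ≤ A1 := le_inf h.sa.dp.le (hPH.trans le_sup_right)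
  have hQB1 : Q ≤ B1 := le_inf h.sb.dp.le (hQH.trans le_sup_right)
  have hfacL : ∀ g ∈ L, ∃ a ∈ A1, ∃ b ∈ B1, g = a * b := by
    rintro g ⟨hg1, hg2⟩
    obtain ⟨a, ha, b, hb, rfl⟩ := h.fac g
    refine ⟨a, ⟨ha, ?_⟩, b, ⟨hb, ?_⟩, rfl⟩
    · have h1 := (B ⊔ H).mul_mem hg2 ((B ⊔ H).inv_mem (le_sup_left (a := B) hb))
      rwa [mul_inv_cancel_right] at h1
    · have h1 := (A ⊔ H).mul_mem ((A ⊔ H).inv_mem (le_sup_left (a := A) ha)) hg1
      rwa [inv_mul_cancel_left] at h1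
  have hdA : DP A1 P := ⟨h.sa.dp.dc, hPA1, fun h0 => h.sa.dp.fin
    (Subgroup.relIndex_eq_zero_of_le_right inf_le_left h0)⟩
  have hdB : DP B1 Q := ⟨h.sb.dp.dc, hQB1, fun h0 => h.sb.dp.fin
    (Subgroup.relIndex_eq_zero_of_le_right inf_le_left h0)⟩
  have hHyp := Hyp.sub hA1L hB1L hfacL (h.sa.restrict inf_le_left hdA)
    (h.sb.restrict inf_le_left hdB)
  have hcc := hC.sub G A A0 B B0 A1 B1 L hc inf_le_left inf_le_left hA1L hB1L
  have hr1 := (h.sa.dp.dc.rk_subgroupOf_le (hPH.trans hHL)).2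
  have hr2 := (h.sb.dp.dc.rk_subgroupOf_le (hQH.trans hHL)).2
  have hsup : P.subgroupOf L ⊔ Q.subgroupOf L = H.subgroupOf L :=
    (Subgroup.subgroupOf_sup (hPH.trans hHL) (hQH.trans hHL)).symm
  have hA1top : A1 ⊔ H = L := by
    refine le_antisymm (sup_le hA1L hHL) ?_
    rintro g ⟨hg1, hg2⟩
    obtain ⟨a, ha, x, hx, rfl⟩ := Subgroup.mem_sup_of_normal_right.mp hg1
    refine (A1 ⊔ H).mul_mem (le_sup_left (a := A1) ⟨ha, ?_⟩) (le_sup_right (a := A1) hx)
    have h1 := (B ⊔ H).mul_mem hg2 ((B ⊔ H).inv_mem (le_sup_right (a := B) hx))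
    rwa [mul_inv_cancel_right] at h1
  have hB1top : B1 ⊔ H = L := by
    refine le_antisymm (sup_le hB1L hHL) ?_
    rintro g ⟨hg1, hg2⟩
    obtain ⟨a, ha, x, hx, rfl⟩ := Subgroup.mem_sup_of_normal_right.mp hg2
    refine (B1 ⊔ H).mul_mem (le_sup_left (a := B1) ⟨ha, ?_⟩) (le_sup_right (a := B1) hx)
    have h1 := (A ⊔ H).mul_mem hg1 ((A ⊔ H).inv_mem (le_sup_right (a := A) hx))
    rwa [mul_inv_cancel_right] at h1
  have key := step_nrm' hC core hB hHyp hcc (by omega) ?_ ?_ ?_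
  · intro x hx y hy
    have h1 := key ⟨x, hHL (hPH hx)⟩ hx ⟨y, hHL (hQH hy)⟩ hy
    exact congrArg Subtype.val h1
  · rw [hsup, ← Subgroup.subgroupOf_sup hA1L hHL, hA1top, Subgroup.subgroupOf_self]
  · rw [hsup, ← Subgroup.subgroupOf_sup hB1L hHL, hB1top, Subgroup.subgroupOf_self]
  · rw [hsup]
    exact hnorm.subgroupOf L

/-- The reduction theorem. -/
theorem reduction' {C : ∀ (G : Type) [Group G], Subgroup G → Subgroup G → Subgroup G →
    Subgroup G → Prop} (hC : Cls C)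
    (core : ∀ (G : Type) [Group G] (A A0 P B B0 Q : Subgroup G), Cfg A A0 P B B0 Q →
      Mini A P B Q → C G A A0 B B0 → False) (G : Type) [Group G] (A A0 P B B0 Q : Subgroup G)
    (h : Hyp A A0 P B B0 Q) (hc : C G A A0 B B0) : ∀ x ∈ P, ∀ y ∈ Q, x * y = y * x := by
  have key : ∀ n : ℕ, Below C n := by
    intro n
    induction n with
    | zero => intro G _ A A0 P B B0 Q _ _ h0; exact absurd h0 (Nat.not_lt_zero _)
    | succ n ih => exact step' hC core ih
  exact key (rk P + rk Q + 1) G A A0 P B B0 Q h hc (Nat.lt_succ_self _)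

end H36.CH
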