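import Mathlib
import Pool.Agent.H92.CK.Targets

set_option autoImplicit false

/-!
# Module ANC: a smooth surface contained in an analytic set is analytic somewhere
-/

open MeasureTheory Set Filter Topology Metric
open scoped ENNReal NNReal ContDiff RealInnerProductSpace

namespace Pool.Agent.H68.CK

open Pool.Agent.H94.IC Pool.Agent.H94.AC Pool.Agent.H92.CK

/-- `cx` as a linear map -/
noncomputable def cxL : E →L[ℝ] C3 :=
  ContinuousLinearMap.pi fun k => Complex.ofRealCLM.comp (EuclideanSpace.proj k)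

theorem cxL_apply (x : E) : cxL x = cx x := rfl

theorem pf_ANC (hOSG : T_OSG) (hORD : T_ORD) (hACH : T_ACH) : T_ANC := by
  intro Y S Ψ p hp hp2 hΨ hΨ' hS hSY hAN
  obtain ⟨ρ, F, hρ, hGH, hF, x1, hx1, hx1Y⟩ := hAN
  have hFa : AnalyticOnNhd ℂ F (ball (cx p) ρ) := hOSG _ F isOpen_ball hGH
  set V : Set E := cxL ⁻¹' ball (cx p) ρ with hV
  have hVo : IsOpen V := isOpen_ball.preimage cxL.continuous
  have hVc : IsPreconnected V :=
    ((convex_ball (cx p) ρ).linear_preimage cxL.toLinearMap).isPreconnected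
  have hpV : p ∈ V := by
    change cxL p ∈ ball (cx p) ρ
    rw [cxL_apply]
    exact mem_ball_self hρ
  set f : E → ℝ := fun x => (F (cx x)).re with hf
  have hfa : AnalyticOnNhd ℝ f V := by
    intro x hx
    have h1 : AnalyticAt ℝ F (cxL x) := (hFa (cxL x) hx).restrictScalars
    have h2 : AnalyticAt ℝ (F ∘ cxL) x := h1.comp (cxL.analyticAt x)
    exact (Complex.reCLM.analyticAt _).comp h2
  obtain ⟨r, hr, hrs⟩ := Metric.isOpen_iff.1 (Ψ.open_source.inter hVo) p ⟨hp, hpV⟩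
  have hpS : p ∈ S := (hS p hp).2 hp2
  have hf0 : ∀ x ∈ S, x ∈ ball p r → f x = 0 := by
    intro x hxS hx
    obtain ⟨hxs, hxV⟩ := hrs hx
    have h1 := ((hF x hxV).2).1 (hSY x hxs hxS)
    simp only [hf, h1, Complex.zero_re]
  have hne : ∃ x ∈ ball p r, f x ≠ 0 := by
    by_contra hcon
    push Not at hcon
    have h1 : f =ᶠ[𝓝 p] 0 := by
      filter_upwards [ball_mem_nhds p hr] with x hx
      exact hcon x hx
    have h2 := hfa.eqOn_zero_of_preconnected_of_eventuallyEq_zero hVc hpV h1 (x := x1) hx1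
    apply hx1Y
    refine (hF x1 hx1).2.2 (Complex.ext ?_ ?_)
    · exact h2
    · exact (hF x1 hx1).1
  obtain ⟨q, hqS, hqb, g, hg, hgS, hgd⟩ := hORD f p r S hr (hfa.mono fun x hx => (hrs hx).2) hpS
    hf0 hne
  have hqs : q ∈ Ψ.source := (hrs hqb).1
  refine ⟨q, hqs, hqS, hACH S q Ψ g hqs ((hS q hqs).1 hqS) hΨ hΨ' hS (hg q hqb) ?_ hgd⟩
  filter_upwards [isOpen_ball.mem_nhds hqb] with x hx hxS
  exact hgS x hxS hx

end Pool.Agent.H68.CK
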