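import Mathlib
import Pool.Agent.H92.CK.Targets
import Pool.Agent.H56.ICA.CNI
import Pool.Agent.H56.ICA.DSJ

/-!
# Pairs of insulating cracks, module ANG: the angular lemma at common points of the edges
-/

open MeasureTheory Set Filter Topology Metric
open scoped ENNReal NNReal ContDiff RealInnerProductSpace

namespace Pool.Agent.H68.CK

open Pool.Agent.H94.IC Pool.Agent.H94.AC Pool.Agent.H92.CK Pool.Agent.H56.ICA

/-- data of a chart of a half plane -/
structure HC (S : Set E) (Ψ : OpenPartialHomeomorph E E) : Prop where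
  d1 : ContDiffOn ℝ ∞ Ψ Ψ.source
  d2 : ContDiffOn ℝ ∞ Ψ.symm Ψ.target
  mem : ∀ x ∈ Ψ.source, x ∈ S ↔ ((Ψ x) 2 = 0 ∧ 0 ≤ (Ψ x) 0)

/-- the projection to the plane orthogonal to the edge -/
noncomputable def PP (u : E) : ℂ := ⟨u 0, u 2⟩

theorem cont_co (k : Fin 3) : Continuous (fun y : E => y k) := by fun_prop

theorem cont_PP : Continuous PP := by
  have h : PP = fun u : E => ((u 0 : ℝ) : ℂ) + ((u 2 : ℝ) : ℂ) * Complex.I := by
    funext u
    apply Complex.ext <;> simp [PP]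
  rw [h]
  exact (Complex.continuous_ofReal.comp (cont_co 0)).add
    ((Complex.continuous_ofReal.comp (cont_co 2)).mul continuous_const)

theorem PP_zero_iff (u : E) : PP u = 0 ↔ u 0 = 0 ∧ u 2 = 0 := by
  rw [Complex.ext_iff]
  simp [PP]

/-- edge points in a half plane chart -/
theorem edge_iff (hDSJ : T_DSJ) {S : Set E} {Ψ : OpenPartialHomeomorph E E} (h : HC S Ψ) {y : E}
    (hy : y ∈ Ψ.source) : y ∈ edgePts S ↔ PP (Ψ y) = 0 := by
  rw [PP_zero_iff]
  constructor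
  · rintro ⟨hyS, hyc⟩
    obtain ⟨h2, h0⟩ := (h.mem y hy).1 hyS
    refine ⟨?_, h2⟩
    rcases h0.lt_or_eq with h0 | h0
    · exfalso
      have hopen : IsOpen (Ψ.source ∩ Ψ ⁻¹' {z : E | 0 < z 0}) :=
        Ψ.isOpen_inter_preimage (isOpen_lt continuous_const (cont_co 0))
      refine hDSJ S y ⟨flat_move h.d1 h.d2 hopen hy ⟨hy, h0⟩ h2 ?_, hyc⟩
      intro x hx hxV
      rw [h.mem x hx]
      have : 0 < (Ψ x) 0 := hxV.2
      exact ⟨fun h => h.1, fun h => ⟨h, this.le⟩⟩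
    · exact h0.symm
  · rintro ⟨h0, h2⟩
    refine ⟨(h.mem y hy).2 ⟨h2, h0.symm.le⟩, Ψ.transHomeomorph (Homeomorph.addRight (-Ψ y)), hy, ?_, ?_, ?_, ?_⟩
    · change Ψ y + -Ψ y = 0
      simp
    · change ContDiffOn ℝ ∞ (fun x => Ψ x + -Ψ y) Ψ.source
      exact h.d1.add contDiffOn_const
    · have : ContDiffOn ℝ ∞ (fun z => Ψ.symm (z + - -Ψ y)) {z | z + - -Ψ y ∈ Ψ.target} :=
        h.d2.comp ((contDiff_id.add contDiff_const).contDiffOn) fun y hy => hy
      exact this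
    · intro x hx
      rw [h.mem x hx]
      change _ ↔ (Ψ x + -Ψ y) 2 = 0 ∧ (True → 0 ≤ (Ψ x + -Ψ y) 0)
      have e2 : (Ψ x + -Ψ y) 2 = (Ψ x) 2 := by simp [h2]
      have e0 : (Ψ x + -Ψ y) 0 = (Ψ x) 0 := by simp [h0]
      rw [e2, e0]
      simp

/-! ## square roots -/

noncomputable def sq (z : ℂ) : ℂ := Complex.exp (Complex.log z / 2)

theorem sq_sq {z : ℂ} (h : z ≠ 0) : sq z ^ 2 = z := by
  rw [sq, ← Complex.exp_nat_mul]
  have : ((2 : ℕ) : ℂ) * (Complex.log z / 2) = Complex.log z := by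
    push_cast
    ring
  rw [this, Complex.exp_log h]

theorem sq_cont {z : ℂ} (h : z ∈ Complex.slitPlane) : ContinuousAt sq z := by
  have := (continuousAt_clog h).div_const 2
  exact Complex.continuous_exp.continuousAt.comp this

noncomputable def RR (z : ℂ) : ℂ := Complex.I * sq (-z)

theorem RR_sq {z : ℂ} (h : z ≠ 0) : RR z ^ 2 = z := by
  rw [RR, mul_pow, sq_sq (neg_ne_zero.2 h), Complex.I_sq]
  ring

theorem RR_cont {z : ℂ} (h : ¬ (z.im = 0 ∧ 0 ≤ z.re)) : ContinuousAt RR z := by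
  have hs : -z ∈ Complex.slitPlane := by
    rw [Complex.mem_slitPlane_iff]
    by_contra hc
    push Not at hc
    apply h
    refine ⟨?_, ?_⟩
    · simpa using hc.2
    · simpa using hc.1
  have h1 : ContinuousAt (fun z : ℂ => sq (-z)) z :=
    ContinuousAt.comp (f := fun z : ℂ => -z) (g := sq) (sq_cont hs) continuous_neg.continuousAt
  exact continuousAt_const.mul h1

theorem RR_eq {z : ℂ} (hz : 0 < z.re) (hi : z.im ≠ 0) : RR z = ((sgu z.im : ℤ) : ℂ) * sq z := by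
  have hz0 : z ≠ 0 := by
    rintro rfl
    simp at hz
  rcases lt_or_gt_of_ne hi with h | h
  · have ha := Complex.arg_neg_eq_arg_add_pi_of_im_neg h
    have hl : Complex.log (-z) = Complex.log z + Real.pi * Complex.I := by
      apply Complex.ext
      · rw [Complex.log_re, norm_neg]
        simp [Complex.log_re]
      · rw [Complex.log_im, ha]
        simp [Complex.log_im]
    have hs : sgu z.im = -1 := by
      rw [sgu, if_neg (not_lt.2 h.le)]
    rw [RR, sq, hl, add_div, Complex.exp_add, hs]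
    have he : Complex.exp (Real.pi * Complex.I / 2) = Complex.I := by
      rw [mul_div_right_comm]
      exact Complex.exp_pi_div_two_mul_I
    rw [he, sq]
    push_cast
    linear_combination (Complex.exp (Complex.log z / 2)) * Complex.I_mul_I
  · have ha := Complex.arg_neg_eq_arg_sub_pi_of_im_pos h
    have hl : Complex.log (-z) = Complex.log z + -(Real.pi * Complex.I) := by
      apply Complex.ext
      · rw [Complex.log_re, norm_neg]
        simp [Complex.log_re]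
      · rw [Complex.log_im, ha]
        simp [Complex.log_im]
        ring
    have hs : sgu z.im = 1 := by
      rw [sgu, if_pos h]
    rw [RR, sq, hl, add_div, Complex.exp_add, hs]
    have he : Complex.exp (-(Real.pi * Complex.I) / 2) = -Complex.I := by
      rw [neg_div, Complex.exp_neg, mul_div_right_comm, Complex.exp_pi_div_two_mul_I, Complex.inv_I]
    rw [he, sq]
    push_cast
    linear_combination (-Complex.exp (Complex.log z / 2)) * Complex.I_mul_I

/-! ## local sign functions -/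

theorem lsg_mono {S : Set E} {e : E → ℤˣ} {p : E} {r r' : ℝ} (h : LSg S e p r) (h0 : 0 < r') (hr : r' ≤ r) :
    LSg S e p r' := by
  obtain ⟨_, h⟩ := h
  refine ⟨h0, ?_⟩
  rcases h with ⟨hd, c, hc⟩ | ⟨Ψ, hs, hp, h1, h2, hS, c, hc⟩
  · exact Or.inl ⟨hd.mono_left (ball_subset_ball hr), c, fun y hy => hc y (ball_subset_ball hr hy)⟩
  · exact Or.inr ⟨Ψ, (ball_subset_ball hr).trans hs, hp, h1, h2, hS, c,
      fun y hy => hc y (ball_subset_ball hr hy)⟩

theorem lsg_mul {S : Set E} {e : E → ℤˣ} {p : E} {r : ℝ} (h : LSg S e p r) (k : ℤˣ) :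
    LSg S (fun y => k * e y) p r := by
  obtain ⟨h0, h⟩ := h
  refine ⟨h0, ?_⟩
  rcases h with ⟨hd, c, hc⟩ | ⟨Ψ, hs, hp, h1, h2, hS, c, hc⟩
  · exact Or.inl ⟨hd, k * c, fun y hy => by beta_reduce; rw [hc y hy]⟩
  · exact Or.inr ⟨Ψ, hs, hp, h1, h2, hS, k * c, fun y hy hyS => by beta_reduce; rw [hc y hy hyS, mul_assoc]⟩

/-- near a point off the edge the square root is the product of a sign function and a continuous function -/
theorem loc {S : Set E} {Ψ : OpenPartialHomeomorph E E} (h : HC S Ψ) (hcl : IsClosed S) {p : E}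
    (hp : p ∈ Ψ.source) (h0 : PP (Ψ p) ≠ 0) : ∃ t > 0, ball p t ⊆ Ψ.source ∧ ∃ (e : E → ℤˣ) (Q : E → ℂ),
      LSg S e p t ∧ ContinuousOn Q (ball p t) ∧
      ∀ y ∈ ball p t, Q y ≠ 0 ∧ Q y ^ 2 = PP (Ψ y) ∧ (y ∉ S → RR (PP (Ψ y)) = ((e y : ℤ) : ℂ) * Q y) := by
  have hPc : ContinuousOn (fun y => PP (Ψ y)) Ψ.source := cont_PP.comp_continuousOn Ψ.continuousOn
  by_cases hpS : p ∈ S
  · obtain ⟨h2, h00⟩ := (h.mem p hp).1 hpS
    have hpos : 0 < (Ψ p) 0 := by
      rcases h00.lt_or_eq with h' | h'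
      · exact h'
      · exact absurd ((PP_zero_iff _).2 ⟨h'.symm, h2⟩) h0
    have hopen : IsOpen (Ψ.source ∩ Ψ ⁻¹' {z : E | 0 < z 0}) :=
      Ψ.isOpen_inter_preimage (isOpen_lt continuous_const (cont_co 0))
    obtain ⟨t, ht, hts⟩ := Metric.isOpen_iff.1 hopen p ⟨hp, hpos⟩
    refine ⟨t, ht, hts.trans inter_subset_left, fun y => sgu ((Ψ y) 2), fun y => sq (PP (Ψ y)), ?_, ?_, ?_⟩
    · refine ⟨ht, Or.inr ⟨Ψ.restrOpen _ hopen, ?_, h2, ?_, ?_, ?_, 1, fun y _ _ => (one_mul _).symm⟩⟩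
      · intro y hy
        exact ⟨(hts hy).1, hts hy⟩
      · exact h.d1.mono inter_subset_left
      · refine h.d2.mono ?_
        intro y hy
        exact hy.1
      · rintro x ⟨hx, hx'⟩
        rw [h.mem x hx]
        have : 0 < (Ψ x) 0 := hx'.2
        change _ ↔ (Ψ x) 2 = 0
        exact ⟨fun h => h.1, fun h => ⟨h, this.le⟩⟩
    · intro y hy
      have hy' := hts hy
      refine ContinuousAt.continuousWithinAt ?_
      have h1 : ContinuousAt (fun y => PP (Ψ y)) y := hPc.continuousAt (Ψ.open_source.mem_nhds hy'.1)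
      refine ContinuousAt.comp (f := fun y => PP (Ψ y)) (g := sq) (sq_cont ?_) h1
      exact Or.inl hy'.2
    · intro y hy
      have hy' := hts hy
      have hre : 0 < (PP (Ψ y)).re := hy'.2
      have hz : PP (Ψ y) ≠ 0 := by
        intro h'
        rw [h'] at hre
        simp at hre
      have e1 := sq_sq hz
      refine ⟨?_, e1, ?_⟩
      · intro h'
        beta_reduce at h'
        rw [h'] at e1
        exact hz (by rw [← e1]; ring)
      · intro hyS
        refine RR_eq hre ?_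
        intro h'
        exact hyS ((h.mem y hy'.1).2 ⟨h', hre.le⟩)
  · have hopen : IsOpen (Ψ.source ∩ Sᶜ) := Ψ.open_source.inter hcl.isOpen_compl
    obtain ⟨t, ht, hts⟩ := Metric.isOpen_iff.1 hopen p ⟨hp, hpS⟩
    refine ⟨t, ht, hts.trans inter_subset_left, fun y => 1, fun y => RR (PP (Ψ y)), ?_, ?_, ?_⟩
    · exact ⟨ht, Or.inl ⟨Set.disjoint_left.2 fun y hy => (hts hy).2, 1, fun _ _ => rfl⟩⟩
    · intro y hy
      have hy' := hts hy
      refine ContinuousAt.continuousWithinAt ?_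
      have h1 : ContinuousAt (fun y => PP (Ψ y)) y := hPc.continuousAt (Ψ.open_source.mem_nhds hy'.1)
      refine ContinuousAt.comp (f := fun y => PP (Ψ y)) (g := RR) (RR_cont ?_) h1
      intro h'
      exact hy'.2 ((h.mem y hy'.1).2 h')
    · intro y hy
      have hy' := hts hy
      have hz : PP (Ψ y) ≠ 0 := by
        intro h'
        rw [PP_zero_iff] at h'
        exact hy'.2 ((h.mem y hy'.1).2 ⟨h'.2, h'.1.symm.le⟩)
      have e1 := RR_sq hz
      refine ⟨?_, e1, fun _ => by simp⟩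
      intro h'
      beta_reduce at h'
      rw [h'] at e1
      exact hz (by rw [← e1]; ring)

/-! ## the derivative of the transition -/

theorem PP_add (u v : E) : PP (u + v) = PP u + PP v := by
  apply Complex.ext <;> simp [PP]

theorem PP_smul (c : ℝ) (u : E) : PP (c • u) = c • PP u := by
  apply Complex.ext <;> simp [PP]

theorem PP_sub (u v : E) : PP (u - v) = PP u - PP v := by
  apply Complex.ext <;> simp [PP]

/-- the projection as a continuous linear map -/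
noncomputable def PL : E →L[ℝ] ℂ :=
  LinearMap.toContinuousLinearMap { toFun := PP, map_add' := PP_add, map_smul' := PP_smul }

theorem PL_apply (u : E) : PL u = PP u := rfl

theorem norm_PP (u : E) : ‖PP u‖ ^ 2 = (u 0) ^ 2 + (u 2) ^ 2 := by
  rw [Complex.sq_norm, Complex.normSq_apply, PP]
  ring

theorem norm_E (u : E) : ‖u‖ ^ 2 = (u 0) ^ 2 + (u 1) ^ 2 + (u 2) ^ 2 := by
  rw [EuclideanSpace.norm_sq_eq, Fin.sum_univ_three]
  simp

theorem norm_PP_le (u : E) : ‖PP u‖ ≤ ‖u‖ := by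
  have h1 := norm_PP u
  have h2 := norm_E u
  refine (sq_le_sq₀ (norm_nonneg _) (norm_nonneg _)).1 ?_
  nlinarith [sq_nonneg (u 1)]

theorem norm_part (u : E) : ‖u - (u 1) • ev 1‖ = ‖PP u‖ := by
  have h1 := norm_PP u
  have h2 := norm_E (u - (u 1) • ev 1)
  have h3 : ‖u - (u 1) • ev 1‖ ^ 2 = ‖PP u‖ ^ 2 := by
    rw [h1, h2]
    simp
  exact (pow_left_inj₀ (norm_nonneg _) (norm_nonneg _) two_ne_zero).1 h3

theorem decomp (v : E) : v = (v 0) • ev 0 + (v 1) • ev 1 + (v 2) • ev 2 := by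
  ext i
  fin_cases i <;> simp

/-- near `x` the second coordinate function is close to a linear function of the first one -/
theorem trans {S S' : Set E} (hDSJ : T_DSJ) {Ψ Ψ' : OpenPartialHomeomorph E E} {x : E} (h : HC S Ψ)
    (h' : HC S' Ψ') (hx : x ∈ Ψ.source) (hx' : x ∈ Ψ'.source) (h0 : Ψ x = 0) (h0' : Ψ' x = 0)
    (he : ∃ r > 0, ∀ y ∈ ball x r, (y ∈ edgePts S ↔ y ∈ edgePts S')) :
    ∃ α β : ℂ, ‖α‖ ≠ ‖β‖ ∧ ∀ ε > 0, ∃ r > 0, ∀ y ∈ ball x r,
      ‖PP (Ψ' y) - (α * PP (Ψ y) + β * (starRingEnd ℂ) (PP (Ψ y)))‖ ≤ ε * ‖PP (Ψ y)‖ := by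
  obtain ⟨r0, hr0, her⟩ := he
  have ht0 : (0 : E) ∈ Ψ.target := by rw [← h0]; exact Ψ.map_source hx
  have ht0' : (0 : E) ∈ Ψ'.target := by rw [← h0']; exact Ψ'.map_source hx'
  have hs0 : Ψ.symm 0 = x := by rw [← h0]; exact Ψ.left_inv hx
  have hs0' : Ψ'.symm 0 = x := by rw [← h0']; exact Ψ'.left_inv hx'
  set A : E →L[ℝ] E := (fderiv ℝ Ψ' x).comp (fderiv ℝ Ψ.symm 0) with hA
  have hstr : HasStrictFDerivAt (fun y => Ψ' (Ψ.symm y)) A 0 := by
    have h1 : HasStrictFDerivAt Ψ' (fderiv ℝ Ψ' x) (Ψ.symm 0) := by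
      rw [hs0]
      exact (h'.d1.contDiffAt (Ψ'.open_source.mem_nhds hx')).hasStrictFDerivAt (by simp)
    have h2 : HasStrictFDerivAt Ψ.symm (fderiv ℝ Ψ.symm 0) 0 :=
      (h.d2.contDiffAt (Ψ.open_target.mem_nhds ht0)).hasStrictFDerivAt (by simp)
    exact h1.comp (0 : E) h2
  -- surjectivity
  have hsurj : ∀ w : E, ∃ v : E, A v = w := by
    intro w
    refine ⟨fderiv ℝ Ψ x (fderiv ℝ Ψ'.symm 0 w), ?_⟩
    rw [hA, ContinuousLinearMap.comp_apply]
    have e1 := chart_fderiv' h.d1 h.d2 hx (fderiv ℝ Ψ'.symm 0 w)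
    rw [h0] at e1
    rw [e1]
    have e2 := chart_fderiv h'.d1 h'.d2 ht0' w
    rw [hs0'] at e2
    exact e2
  -- the edges agree
  have hedge : ∀ᶠ v in 𝓝 (0 : E), PP v = 0 → PP (Ψ' (Ψ.symm v)) = 0 := by
    have hc : ContinuousAt Ψ.symm 0 := Ψ.continuousAt_symm ht0
    have hN : ball x r0 ∩ (Ψ.source ∩ Ψ'.source) ∈ 𝓝 (Ψ.symm 0) := by
      rw [hs0]
      exact inter_mem (ball_mem_nhds _ hr0)
        (inter_mem (Ψ.open_source.mem_nhds hx) (Ψ'.open_source.mem_nhds hx'))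
    filter_upwards [hc.preimage_mem_nhds hN, Ψ.open_target.mem_nhds ht0] with v hv hvt hP
    obtain ⟨hv1, hv2, hv3⟩ := hv
    rw [← edge_iff hDSJ h' hv3, ← her _ hv1, edge_iff hDSJ h hv2, Ψ.right_inv hvt]
    exact hP
  -- the derivative along the edge
  have hb1 : PP (A (ev 1)) = 0 := by
    have h1 : HasDerivAt (fun t : ℝ => (t • ev 1 : E)) ((1 : ℝ) • ev 1) 0 :=
      (hasDerivAt_id (0 : ℝ)).smul_const (ev 1)
    have h2 : HasFDerivAt (fun y => PL (Ψ' (Ψ.symm y))) (PL.comp A) ((0 : ℝ) • ev 1 : E) := by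
      rw [zero_smul]
      exact PL.hasFDerivAt.comp (0 : E) hstr.hasFDerivAt
    have h3 := h2.comp_hasDerivAt (0 : ℝ) h1
    have h4 : HasDerivAt (fun t : ℝ => PL (Ψ' (Ψ.symm (t • ev 1)))) 0 0 := by
      refine (hasDerivAt_const (0 : ℝ) (0 : ℂ)).congr_of_eventuallyEq ?_
      have hc : Tendsto (fun t : ℝ => (t • ev 1 : E)) (𝓝 0) (𝓝 0) := by
        have : Continuous (fun t : ℝ => (t • ev 1 : E)) := by fun_prop
        have h := this.tendsto 0
        rwa [zero_smul] at h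
      filter_upwards [hc.eventually hedge] with t ht
      refine ht ?_
      rw [PP_zero_iff]
      simp
    have h5 := h3.unique h4
    rw [one_smul] at h5
    exact h5
  have hdec : ∀ v : E, PP (A v) = ((v 0 : ℝ) : ℂ) * PP (A (ev 0)) + ((v 2 : ℝ) : ℂ) * PP (A (ev 2)) := by
    intro v
    conv_lhs => rw [decomp v]
    rw [map_add, map_add, map_smul, map_smul, map_smul, PP_add, PP_add, PP_smul, PP_smul, PP_smul, hb1]
    simp
  set b0 : ℂ := PP (A (ev 0)) with hb0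
  set b2 : ℂ := PP (A (ev 2)) with hb2
  have hdet : b0.re * b2.im - b0.im * b2.re ≠ 0 := by
    obtain ⟨v, hv⟩ := hsurj (ev 0)
    obtain ⟨w, hw⟩ := hsurj (ev 2)
    have e1 := hdec v
    have e2 := hdec w
    rw [hv] at e1
    rw [hw] at e2
    have p1 : (v 0) * b0.re + (v 2) * b2.re = 1 := by
      have := congrArg Complex.re e1
      simp [PP] at this
      linarith
    have p2 : (v 0) * b0.im + (v 2) * b2.im = 0 := by
      have := congrArg Complex.im e1
      simp [PP] at this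
      linarith
    have p3 : (w 0) * b0.re + (w 2) * b2.re = 0 := by
      have := congrArg Complex.re e2
      simp [PP] at this
      linarith
    have p4 : (w 0) * b0.im + (w 2) * b2.im = 1 := by
      have := congrArg Complex.im e2
      simp [PP] at this
      linarith
    intro hz
    have : (v 0 * w 2 - v 2 * w 0) * (b0.re * b2.im - b0.im * b2.re) = 1 := by
      linear_combination (w 0 * b0.im + w 2 * b2.im) * p1 - (w 0 * b0.re + w 2 * b2.re) * p2 + p4
    rw [hz, mul_zero] at this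
    exact zero_ne_one this
  refine ⟨(b0 - Complex.I * b2) / 2, (b0 + Complex.I * b2) / 2, ?_, ?_⟩
  · intro heq
    rw [norm_div, norm_div] at heq
    have h2 : ‖b0 - Complex.I * b2‖ = ‖b0 + Complex.I * b2‖ :=
      (div_left_inj' (by simp)).1 heq
    have h1 : Complex.normSq (b0 - Complex.I * b2) = Complex.normSq (b0 + Complex.I * b2) := by
      rw [← Complex.sq_norm, ← Complex.sq_norm, h2]
    rw [Complex.normSq_apply, Complex.normSq_apply] at h1
    simp only [Complex.sub_re, Complex.sub_im, Complex.add_re, Complex.add_im, Complex.mul_re, Complex.mul_im,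
      Complex.I_re, Complex.I_im, zero_mul, one_mul, zero_sub, zero_add] at h1
    apply hdet
    linarith
  · intro ε hε
    have hev := (hstr.isLittleO.def hε)
    have hc : Tendsto (fun y : E => ((Ψ y, ((Ψ y) 1) • ev 1) : E × E)) (𝓝 x) (𝓝 ((0 : E), (0 : E))) := by
      have h1 : ContinuousAt Ψ x := Ψ.continuousAt hx
      have h2 : ContinuousAt (fun y => ((Ψ y) 1) • ev 1) x :=
        (((cont_co 1).continuousAt (x := Ψ x)).comp h1).smul continuousAt_const
      have h3 : ((0 : E), (0 : E)) = (Ψ x, ((Ψ x) 1) • ev 1) := by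
        rw [h0]
        simp
      rw [h3]
      exact h1.prodMk_nhds h2
    have hc2 : Tendsto (fun y : E => ((Ψ y) 1) • ev 1) (𝓝 x) (𝓝 (0 : E)) :=
      (continuous_snd.tendsto _).comp hc
    have hall : ∀ᶠ y in 𝓝 x, ‖PP (Ψ' y) - ((b0 - Complex.I * b2) / 2 * PP (Ψ y) +
        (b0 + Complex.I * b2) / 2 * (starRingEnd ℂ) (PP (Ψ y)))‖ ≤ ε * ‖PP (Ψ y)‖ := by
      filter_upwards [hc.eventually hev, hc2.eventually hedge, Ψ.open_source.mem_nhds hx] with y h1 h2 h3
      have h4 : PP (Ψ' (Ψ.symm ((Ψ y) 1 • ev 1))) = 0 := by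
        apply h2
        rw [PP_zero_iff]
        simp
      have h5 : (b0 - Complex.I * b2) / 2 * PP (Ψ y) +
        (b0 + Complex.I * b2) / 2 * (starRingEnd ℂ) (PP (Ψ y)) = PP (A (Ψ y - (Ψ y) 1 • ev 1)) := by
        rw [map_sub, map_smul, PP_sub, PP_smul, hb1, smul_zero, sub_zero, hdec]
        have e1 : PP (Ψ y) = ((Ψ y) 0 : ℝ) + ((Ψ y) 2 : ℝ) * Complex.I := by
          apply Complex.ext <;> simp [PP]
        have e2 : (starRingEnd ℂ) (PP (Ψ y)) = ((Ψ y) 0 : ℝ) - ((Ψ y) 2 : ℝ) * Complex.I := by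
          apply Complex.ext <;> simp [PP]
        rw [e2, e1]
        linear_combination (-b2 * ((Ψ y) 2 : ℝ)) * Complex.I_mul_I
      rw [h5]
      rw [Ψ.left_inv h3] at h1
      rw [← norm_part (Ψ y)]
      refine le_trans (le_of_eq_of_le ?_ (norm_PP_le _)) h1
      rw [PP_sub, PP_sub, h4, sub_zero]
    obtain ⟨r, hr, hrs⟩ := Metric.eventually_nhds_iff_ball.1 hall
    exact ⟨r, hr, hrs⟩

/-! ## the theorem -/

theorem sgn_cases (s : ℤˣ) : ((s : ℤ) : ℂ) = 1 ∨ ((s : ℤ) : ℂ) = -1 := by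
  rcases Int.units_eq_one_or s with h | h <;> simp [h]

theorem sgn_sq (s : ℤˣ) : ((s : ℤ) : ℂ) * ((s : ℤ) : ℂ) = 1 := by
  rcases sgn_cases s with h | h <;> rw [h] <;> ring

theorem sgn_one (s : ℤˣ) (h : ((s : ℤ) : ℂ) = 1) : s = 1 := by
  rcases Int.units_eq_one_or s with h' | h'
  · exact h'
  · rw [h'] at h
    norm_num at h

/-- the case where the transition preserves the orientation -/
theorem core {S S' : Set E} (hDSJ : T_DSJ) (hcl : IsClosed S) (hcl' : IsClosed S')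
    {Ψ Ψ' : OpenPartialHomeomorph E E} {x : E} (h : HC S Ψ)
    (h' : HC S' Ψ') (hx : x ∈ Ψ.source) (hx' : x ∈ Ψ'.source)
    (he : ∃ r > 0, ∀ y ∈ ball x r, (y ∈ edgePts S ↔ y ∈ edgePts S')) {α β : ℂ} (hab : ‖β‖ < ‖α‖)
    (hest : ∀ ε > 0, ∃ r > 0, ∀ y ∈ ball x r,
      ‖PP (Ψ' y) - (α * PP (Ψ y) + β * (starRingEnd ℂ) (PP (Ψ y)))‖ ≤ ε * ‖PP (Ψ y)‖) :
    ∃ r > 0, ∃ s : E → ℤˣ, ∀ p ∈ ball x r, p ∉ edgePts S → LSec S S' s p := by
  classical
  obtain ⟨r0, hr0, her⟩ := he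
  have hα : 0 < ‖α‖ := lt_of_le_of_lt (norm_nonneg _) hab
  have hα0 : α ≠ 0 := norm_pos_iff.1 hα
  obtain ⟨r1, hr1, hes⟩ := hest ((‖α‖ - ‖β‖) / 2) (by linarith)
  obtain ⟨r2, hr2, hr2s⟩ := Metric.isOpen_iff.1 (Ψ.open_source.inter Ψ'.open_source) x ⟨hx, hx'⟩
  set W : E → ℂ := fun y => PP (Ψ' y) / (α * PP (Ψ y)) with hW
  set c : ℂ := sq α with hc
  have hcc : c ^ 2 = α := sq_sq hα0
  refine ⟨min r0 (min r1 r2), lt_min hr0 (lt_min hr1 hr2),
    fun y => if c * sq (W y) * RR (PP (Ψ y)) = RR (PP (Ψ' y)) then 1 else -1, ?_⟩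
  intro p hp hpe
  have hp0 : p ∈ ball x r0 := ball_subset_ball (min_le_left _ _) hp
  have hp1 : p ∈ ball x r1 := ball_subset_ball ((min_le_right _ _).trans (min_le_left _ _)) hp
  have hp2 : p ∈ ball x r2 := ball_subset_ball ((min_le_right _ _).trans (min_le_right _ _)) hp
  have hps := (hr2s hp2).1
  have hps' := (hr2s hp2).2
  have hz : PP (Ψ p) ≠ 0 := fun hh => hpe ((edge_iff hDSJ h hps).2 hh)
  have hz' : PP (Ψ' p) ≠ 0 := fun hh => hpe ((her p hp0).2 ((edge_iff hDSJ h' hps').2 hh))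
  obtain ⟨t, ht, hts, e, Q, hlsg, hQc, hQ⟩ := loc h hcl hps hz
  obtain ⟨t', ht', hts', e', Q', hlsg', hQc', hQ'⟩ := loc h' hcl' hps' hz'
  obtain ⟨t1, ht1, ht1s⟩ := Metric.isOpen_iff.1 (isOpen_ball (x := x) (ε := r1)) p hp1
  set ρ : ℝ := min t (min t' t1) with hρ
  have hρ0 : 0 < ρ := lt_min ht (lt_min ht' ht1)
  have hB : ball p ρ ⊆ ball p t := ball_subset_ball (min_le_left _ _)
  have hB' : ball p ρ ⊆ ball p t' := ball_subset_ball ((min_le_right _ _).trans (min_le_left _ _))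
  have hB1 : ball p ρ ⊆ ball x r1 :=
    (ball_subset_ball ((min_le_right _ _).trans (min_le_right _ _))).trans ht1s
  have hzy : ∀ y ∈ ball p ρ, PP (Ψ y) ≠ 0 := by
    intro y hy hh
    obtain ⟨h1, h2, _⟩ := hQ y (hB hy)
    rw [hh] at h2
    exact h1 (pow_eq_zero_iff two_ne_zero |>.1 h2)
  have hzy' : ∀ y ∈ ball p ρ, PP (Ψ' y) ≠ 0 := by
    intro y hy hh
    obtain ⟨h1, h2, _⟩ := hQ' y (hB' hy)
    rw [hh] at h2
    exact h1 (pow_eq_zero_iff two_ne_zero |>.1 h2)
  have hslit : ∀ y ∈ ball p ρ, W y ∈ Complex.slitPlane := by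
    intro y hy
    have h1 := hes y (hB1 hy)
    have h2 := hzy y hy
    have h2n : 0 < ‖PP (Ψ y)‖ := norm_pos_iff.2 h2
    have h3 : ‖PP (Ψ' y) - α * PP (Ψ y)‖ < ‖α * PP (Ψ y)‖ := by
      have h4 : PP (Ψ' y) - α * PP (Ψ y) = (PP (Ψ' y) - (α * PP (Ψ y) + β * (starRingEnd ℂ) (PP (Ψ y)))) +
          β * (starRingEnd ℂ) (PP (Ψ y)) := by ring
      rw [h4]
      refine lt_of_le_of_lt (norm_add_le _ _) ?_
      rw [norm_mul, norm_mul, RCLike.norm_conj]
      have h5 : 0 < (‖α‖ - ‖β‖) / 2 * ‖PP (Ψ y)‖ := mul_pos (by linarith) h2n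
      nlinarith
    have hne : α * PP (Ψ y) ≠ 0 := mul_ne_zero hα0 h2
    have h6 : ‖W y - 1‖ < 1 := by
      have h7 : W y - 1 = (PP (Ψ' y) - α * PP (Ψ y)) / (α * PP (Ψ y)) := by
        rw [hW]
        beta_reduce
        field_simp
      rw [h7, norm_div, div_lt_one (norm_pos_iff.2 hne)]
      exact h3
    left
    have h8 := (abs_le.1 (Complex.abs_re_le_norm (W y - 1))).1
    have h9 : (W y - 1).re = (W y).re - 1 := by simp
    linarith
  set κ : E → ℂ := fun y => c * sq (W y) * Q y / Q' y with hκ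
  have hWc : ContinuousOn W (ball p ρ) := by
    intro y hy
    have h1 : ContinuousAt (fun y => PP (Ψ y)) y :=
      cont_PP.continuousAt.comp (Ψ.continuousAt (hts (hB hy)))
    have h2 : ContinuousAt (fun y => PP (Ψ' y)) y :=
      cont_PP.continuousAt.comp (Ψ'.continuousAt (hts' (hB' hy)))
    exact (h2.div (continuousAt_const.mul h1) (mul_ne_zero hα0 (hzy y hy))).continuousWithinAt
  have hκc : ContinuousOn κ (ball p ρ) := by
    have h1 : ContinuousOn (fun y => sq (W y)) (ball p ρ) := by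
      intro y hy
      exact (sq_cont (hslit y hy)).comp_continuousWithinAt (hWc y hy)
    exact ((continuousOn_const.mul h1).mul (hQc.mono hB)).div (hQc'.mono hB') fun y hy => (hQ' y (hB' hy)).1
  have hκ2 : EqOn (κ ^ 2) 1 (ball p ρ) := by
    intro y hy
    have h1 := (hQ y (hB hy)).2.1
    have h2 := (hQ' y (hB' hy)).2.1
    have h3 := hzy y hy
    have h4 := hzy' y hy
    have h5 : W y ≠ 0 := div_ne_zero h4 (mul_ne_zero hα0 h3)
    have h6 : sq (W y) ^ 2 = W y := sq_sq h5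
    change κ y ^ 2 = 1
    rw [hκ]
    beta_reduce
    rw [div_pow, mul_pow, mul_pow, h1, h2, h6, hcc, hW]
    beta_reduce
    field_simp
  have hcon : ∃ k : ℤˣ, ∀ y ∈ ball p ρ, κ y = ((k : ℤ) : ℂ) := by
    rcases (convex_ball p ρ).isPreconnected.eq_one_or_eq_neg_one_of_sq_eq hκc hκ2 with h1 | h1
    · exact ⟨1, fun y hy => by rw [h1 hy]; simp⟩
    · exact ⟨-1, fun y hy => by rw [h1 hy]; simp⟩
  obtain ⟨k, hk⟩ := hcon
  refine ⟨ρ, fun y => k * e y, e', lsg_mul (lsg_mono hlsg hρ0 (min_le_left _ _)) k,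
    lsg_mono hlsg' hρ0 ((min_le_right _ _).trans (min_le_left _ _)), ?_⟩
  intro y hy hyS hyS'
  have h1 := (hQ y (hB hy)).2.2 hyS
  have h2 := (hQ' y (hB' hy)).2.2 hyS'
  have h3 := (hQ' y (hB' hy)).1
  have h4 := hk y hy
  have h5 : c * sq (W y) * Q y = ((k : ℤ) : ℂ) * Q' y := by
    rw [← h4, hκ]
    beta_reduce
    field_simp
  have h6 : c * sq (W y) * RR (PP (Ψ y)) = (((k * e y * e' y : ℤˣ) : ℤ) : ℂ) * RR (PP (Ψ' y)) := by
    rw [h1, h2]
    push_cast
    linear_combination ((e y : ℤ) : ℂ) * h5 - ((k : ℤ) : ℂ) * ((e y : ℤ) : ℂ) * Q' y * sgn_sq (e' y)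
  have h7 : RR (PP (Ψ' y)) ≠ 0 := by
    rw [h2]
    refine mul_ne_zero ?_ h3
    rcases sgn_cases (e' y) with h | h <;> rw [h] <;> norm_num
  beta_reduce
  rw [h6]
  by_cases h8 : (((k * e y * e' y : ℤˣ) : ℤ) : ℂ) * RR (PP (Ψ' y)) = RR (PP (Ψ' y))
  · rw [if_pos h8]
    have h9 : (((k * e y * e' y : ℤˣ) : ℤ) : ℂ) = 1 := by
      have := mul_right_cancel₀ h7 (h8.trans (one_mul _).symm)
      exact this
    exact (sgn_one _ h9).symm
  · rw [if_neg h8]
    rcases Int.units_eq_one_or (k * e y * e' y) with h9 | h9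
    · exfalso
      apply h8
      rw [h9]
      simp
    · exact h9.symm

/-- the reflection at the plane of the chart -/
noncomputable def rf (y : E) : E := y - (2 * y 2) • ev 2

theorem rf0 (y : E) : (rf y) 0 = y 0 := by simp [rf]

theorem rf2 (y : E) : (rf y) 2 = -y 2 := by
  simp [rf]
  ring

theorem rf_rf (y : E) : rf (rf y) = y := by
  have h : rf (rf y) = rf y - (2 * (rf y) 2) • ev 2 := rfl
  rw [h, rf2, rf]
  module

theorem rf_diff : ContDiff ℝ ∞ rf := by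
  have h : ContDiff ℝ ∞ (fun y : E => y 2) := contDiff_piLp_apply (p := 2)
  exact contDiff_id.sub ((contDiff_const.mul h).smul contDiff_const)

noncomputable def rfH : E ≃ₜ E where
  toFun := rf
  invFun := rf
  left_inv := rf_rf
  right_inv := rf_rf
  continuous_toFun := rf_diff.continuous
  continuous_invFun := rf_diff.continuous

theorem rf_PP (y : E) : PP (rf y) = (starRingEnd ℂ) (PP y) := by
  apply Complex.ext
  · change (rf y) 0 = y 0
    exact rf0 y
  · change (rf y) 2 = -(y 2)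
    exact rf2 y

theorem rf_HC {S : Set E} {Ψ : OpenPartialHomeomorph E E} (h : HC S Ψ) : HC S (Ψ.transHomeomorph rfH) := by
  refine ⟨?_, ?_, ?_⟩
  · change ContDiffOn ℝ ∞ (fun x => rf (Ψ x)) Ψ.source
    exact rf_diff.comp_contDiffOn h.d1
  · have : ContDiffOn ℝ ∞ (fun y => Ψ.symm (rf y)) {y | rf y ∈ Ψ.target} :=
      h.d2.comp rf_diff.contDiffOn fun y hy => hy
    exact this
  · intro x hx
    rw [h.mem x hx]
    change _ ↔ (rf (Ψ x)) 2 = 0 ∧ 0 ≤ (rf (Ψ x)) 0
    rw [rf0, rf2, neg_eq_zero]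

theorem pf_ANG (_hLSU : T_LSU) (hDSJ : T_DSJ) : T_ANG := by
  intro S S' x hcl hcl' hch hch' he
  obtain ⟨Ψ, hx, h0, d1, d2, hm⟩ := hch
  obtain ⟨Ψ', hx', h0', d1', d2', hm'⟩ := hch'
  have h : HC S Ψ := ⟨d1, d2, fun y hy => by rw [hm y hy]; simp⟩
  have h' : HC S' Ψ' := ⟨d1', d2', fun y hy => by rw [hm' y hy]; simp⟩
  obtain ⟨α, β, hab, hest⟩ := trans hDSJ h h' hx hx' h0 h0' he
  rcases lt_or_gt_of_ne hab with hlt | hgt
  · -- reflect the second chart
    refine core hDSJ hcl hcl' h (rf_HC h') hx hx' he (α := (starRingEnd ℂ) β) (β := (starRingEnd ℂ) α) ?_ ?_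
    · rw [RCLike.norm_conj, RCLike.norm_conj]
      exact hlt
    · intro ε hε
      obtain ⟨r, hr, hr'⟩ := hest ε hε
      refine ⟨r, hr, fun y hy => ?_⟩
      have h1 := hr' y hy
      change ‖PP (rf (Ψ' y)) - _‖ ≤ _
      rw [rf_PP]
      rw [← RCLike.norm_conj] at h1
      refine le_of_eq_of_le (congrArg _ ?_) h1
      simp only [map_sub, map_add, map_mul, Complex.conj_conj]
      ring
  · exact core hDSJ hcl hcl' h h' hx hx' he hgt hest

end Pool.Agent.H68.CK
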