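import Mathlib
import Pool.Agent.H92.CK.Targets

set_option autoImplicit false

/-!
# Module EQN: the potentials agree off the two cracks, arbitrary family
-/

open MeasureTheory Set Filter Topology Metric
open scoped ENNReal NNReal ContDiff RealInnerProductSpace

namespace Pool.Agent.H68.CK

open Pool.Agent.H94.IC Pool.Agent.H94.AC Pool.Agent.H92.CK

theorem pf_EQN (hUCX : T_UCX) (hENC : T_ENC) (hFFE : T_FFE) (hFMG : T_FMG) (hNVO : T_NVO)
    (hWNS : T_WNS) (hCNX : T_CNX) (hEDC : T_EDC) : T_EQN := by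
  intro N Ω S S' σ ν ψ h h' τ τ' i0 hD hσ hS hS' hψ hh hsol hh' hsol' hττ
  have hS'0 : volume S' = 0 := (hEDC Ω S' hS').2.2.2.2
  have hS0 : volume S = 0 := (hEDC Ω S hS).2.2.2.2
  obtain ⟨hEo, hEc, hEu⟩ := hENC Ω S S' hD hS.cpt hS.sub hS'.cpt hS'.sub
  -- off the enclosed part
  have hoff : ∀ i, ∀ x ∈ Ω, x ∉ S → x ∉ S' → x ∉ Enc Ω S S' → h i x = h' i x := by
    intro i x hx hxS hxS' hxE
    apply hUCX Ω S S' σ ν (ψ i) (h i) (h' i) (τ i) (τ' i) hD.op hD.bdd hσ hS.cpt hS.sub hS0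
      hS'.cpt hS'.sub hS'0 (hh i) (hh' i) (hsol i) (hsol' i) (hττ i) x hx hxS hxS'
    by_contra hcon
    exact hxE ⟨hxS, hxS', hcon⟩
  -- the enclosed part is empty
  have hWN : ∀ i, WN Ω S (h i) := fun i =>
    hWNS Ω S σ ν (ψ i) (h i) (τ i) hD.op hD.bdd hσ hS.cpt hS.sub (hh i) (hsol i)
  have hWN' : ∀ i, WN Ω S' (h' i) := fun i =>
    hWNS Ω S' σ ν (ψ i) (h' i) (τ' i) hD.op hD.bdd hσ hS'.cpt hS'.sub (hh' i) (hsol' i)
  have hgr : ∀ i, ∀ x ∈ Enc Ω S S', gr (h' i) x = 0 := by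
    intro i x hx
    exact hFMG Ω S' (h' i) (Enc Ω S S') hD.op hD.bdd hS' (hWN' i) hEo hEc
      (hFFE Ω S S' (h i) (h' i) hD hS hS'.cpt hS'.sub (hWN i) (hh' i) (hoff i)) x hx hx.2.1
  have hemp : Enc Ω S S' = ∅ := by
    by_contra hne
    rw [← Ne, ← nonempty_iff_ne_empty] at hne
    have hs0 := hsol' i0
    rw [hψ] at hs0
    have hs1 : Sol Ω S' σ ν (prof2 ν 0) (h' i0) (gr (h' i0)) (τ' i0) := hs0
    refine hNVO Ω S' σ ν (h' i0) (τ' i0) hD hσ hS'.cpt hS'.sub hS'0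
      ((hCNX Ω S' hD.op hD.conn hS').isPreconnected) (hh' i0) hs1
      (Enc Ω S S') hEo hne ?_ (fun x hx => hgr i0 x hx)
    intro x hx
    exact ⟨hEc (subset_closure hx), hx.2.1⟩
  refine ⟨hemp, fun i x hx hxS hxS' => ?_⟩
  apply hoff i x hx hxS hxS'
  rw [hemp]
  exact fun h => h

end Pool.Agent.H68.CK
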