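import Pool.Agent.H68.CK.Red
import Pool.Agent.H36.CH2.Kaz
import Pool.Agent.H25.AB.Cen
import Pool.Agent.H78.CT.T10

/-! The final step, from the statement about zero squares. -/

namespace H68.CK

open Subgroup H36.CH

/-- The divisible parts commute. -/
theorem comm_all
    (hT8 : ∀ (G : Type) [Group G] (A A0 P B B0 Q : Subgroup G), Cfg A A0 P B B0 Q →
      Mini A P B Q → H78.CT.T8 A A0 B0)
    (G : Type) [Group G] (A A0 P B B0 Q : Subgroup G) (h : Hyp A A0 P B B0 Q) :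
    ∀ x ∈ P, ∀ y ∈ Q, x * y = y * x := by
  refine reduction' H25.AB.cls_true ?_ G A A0 P B B0 Q h trivial
  intro G _ A A0 P B B0 Q h hm _
  exact H25.AB.false_of_centers_finite h (H78.CT.Cfg.center_finite h (hT8 G A A0 P B B0 Q h hm))
    (H78.CT.Cfg.center_finite h.symm (hT8 G B B0 Q A A0 P h.symm hm.symm))

/-- A product of two Chernikov groups with abelian subgroups of index at most two is soluble and
Chernikov. -/
theorem solvable_all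
    (hT8 : ∀ (G : Type) [Group G] (A A0 P B B0 Q : Subgroup G), Cfg A A0 P B B0 Q →
      Mini A P B Q → H78.CT.T8 A A0 B0)
    (G : Type) [Group G] (A B : Subgroup G) (hfac : ∀ g : G, ∃ a ∈ A, ∃ b ∈ B, g = a * b)
    (hA : ∃ H : Subgroup G, H ≤ A ∧ (∀ x ∈ H, ∀ y ∈ H, x * y = y * x) ∧
      (H.subgroupOf A).index ≠ 0 ∧ WellFoundedLT (Subgroup ↥H))
    (hB : ∃ H : Subgroup G, H ≤ B ∧ (∀ x ∈ H, ∀ y ∈ H, x * y = y * x) ∧
      (H.subgroupOf B).index ≠ 0 ∧ WellFoundedLT (Subgroup ↥H))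
    (hA2 : ∃ K : Subgroup G, K ≤ A ∧ (∀ x ∈ K, ∀ y ∈ K, x * y = y * x) ∧
      (K.subgroupOf A).index ≠ 0 ∧ (K.subgroupOf A).index ≤ 2)
    (hB2 : ∃ K : Subgroup G, K ≤ B ∧ (∀ x ∈ K, ∀ y ∈ K, x * y = y * x) ∧
      (K.subgroupOf B).index ≠ 0 ∧ (K.subgroupOf B).index ≤ 2) :
    Group.IsSolvable G ∧ ∃ D : Subgroup G, D.Normal ∧ (∀ x ∈ D, ∀ y ∈ D, x * y = y * x) ∧
      (∀ x ∈ D, ∀ n : ℕ, 0 < n → ∃ y ∈ D, y ^ n = x) ∧ D.index ≠ 0 ∧
      WellFoundedLT (Subgroup ↥D) := by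
  obtain ⟨K, hK, hKc, hKi, hK2⟩ := hA2
  obtain ⟨L, hL, hLc, hLi, hL2⟩ := hB2
  obtain ⟨P, hP⟩ := exists_side A hA K hK hKc hKi hK2
  obtain ⟨Q, hQ⟩ := exists_side B hB L hL hLc hLi hL2
  have h : Hyp A K P B L Q := ⟨hfac, hP, hQ⟩
  obtain ⟨h1, h2⟩ := conclude h (comm_all hT8 G A K P B L Q h)
  exact ⟨h2 finiteCase, h1⟩

end H68.CK
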