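import Pool.Agent.H68.CK.Red
import Pool.Agent.H36.CH2.Base
import Pool.Agent.H36.CH.Final

/-! The minimal normal subgroup of a minimal configuration and the subgroups generated by the
`n`-torsion of the divisible parts. -/

namespace H36.CH

open Subgroup Pointwise

/-- The minimal normal subgroup. -/
def WW {G : Type*} [Group G] (P Q : Subgroup G) : Subgroup G :=
  Subgroup.normalClosure {g | ∃ x ∈ P, ∃ y ∈ Q, g = x * y * x⁻¹ * y⁻¹}

/-- The elements of order dividing `n` in `P` and in `Q`. -/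
def TT {G : Type*} [Group G] (P Q : Subgroup G) (n : ℕ) : Set G :=
  {x | x ∈ P ∧ x ^ n = 1} ∪ {x | x ∈ Q ∧ x ^ n = 1}

/-- The subgroup generated by the elements of order dividing `n` in `P` and in `Q`. -/
def LL {G : Type*} [Group G] (P Q : Subgroup G) (n : ℕ) : Subgroup G :=
  Subgroup.closure (TT P Q n)

section

variable {G : Type*} [Group G] {A A0 P B B0 Q : Subgroup G}

instance WW_normal : (WW P Q).Normal := Subgroup.normalClosure_normal

theorem Cfg.WW_ne (h : Cfg A A0 P B B0 Q) : WW P Q ≠ ⊥ := by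
  intro h0
  apply h.ne
  intro x hx y hy
  have h1 : x * y * x⁻¹ * y⁻¹ ∈ WW P Q := Subgroup.subset_normalClosure ⟨x, hx, y, hy, rfl⟩
  rw [h0, Subgroup.mem_bot] at h1
  have h2 : x * y = (x * y * x⁻¹ * y⁻¹) * (y * x) := by group
  rw [h2, h1, one_mul]

theorem Cfg.WW_le (h : Cfg A A0 P B B0 Q) {N : Subgroup G} (hN : N.Normal) (hN1 : N ≠ ⊥) :
    WW P Q ≤ N := by
  have htA := h.sup_normal_top N hN hN1
  set f := QuotientGroup.mk' N with hf
  have hfs : Function.Surjective f := QuotientGroup.mk'_surjective N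
  have hker : N.map f = ⊥ := by
    rw [Subgroup.map_eq_bot_iff, hf, QuotientGroup.ker_mk']
  have hA : A.map f = ⊤ := by
    have h1 : (A ⊔ N).map f = ⊤ := by rw [htA, Subgroup.map_top_of_surjective f hfs]
    rwa [Subgroup.map_sup, hker, sup_bot_eq] at h1
  have hDP := h.hyp.sa.dp.map f
  have hDQ := h.hyp.sb.dp.map f
  have hQP : Q.map f ≤ P.map f := by
    refine hDQ.dc.le_of_relIndex ?_
    intro h0
    have h1 := hDP.fin
    rw [hA] at h1
    exact h1 (Subgroup.relIndex_eq_zero_of_le_right le_top h0)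
  refine Subgroup.normalClosure_le_normal ?_
  rintro _ ⟨x, hx, y, hy, rfl⟩
  have h1 := hDP.dc.comm (f x) ⟨x, hx, rfl⟩ (f y) (hQP ⟨y, hy, rfl⟩)
  show x * y * x⁻¹ * y⁻¹ ∈ N
  rw [← QuotientGroup.eq_one_iff]
  show f (x * y * x⁻¹ * y⁻¹) = 1
  rw [map_mul, map_mul, map_mul, h1, map_inv, map_inv]
  group

theorem Cfg.finite_normal (h : Cfg A A0 P B B0 Q) {W : Subgroup G} (hW : W.Normal)
    (hfin : (W : Set G).Finite) : W = ⊥ := by
  rw [eq_bot_iff]
  intro x hx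
  rw [Subgroup.mem_bot]
  have key : ∀ R : Subgroup G, DC R → ∀ p ∈ R, p * x = x * p := by
    intro R hR
    refine hR.comm_of_finite x (hfin.subset ?_)
    rintro _ ⟨p, hp, rfl⟩
    exact hW.conj_mem x hx p
  exact h.cent x (fun y hy => (key P h.hyp.sa.dp.dc y hy).symm)
    (fun y hy => (key Q h.hyp.sb.dp.dc y hy).symm)

theorem TT_symm (n : ℕ) : TT Q P n = TT P Q n := by
  rw [TT, TT, Set.union_comm]

theorem LL_symm (n : ℕ) : LL Q P n = LL P Q n := by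
  rw [LL, LL, TT_symm]

theorem Hyp.TT_finite (h : Hyp A A0 P B B0 Q) {n : ℕ} (hn : 0 < n) : (TT P Q n).Finite :=
  (h.sa.dp.dc.fin_tors n hn).union (h.sb.dp.dc.fin_tors n hn)

theorem mem_LL_left {n : ℕ} {x : G} (hx : x ∈ P) (hn : x ^ n = 1) : x ∈ LL P Q n :=
  Subgroup.subset_closure (Or.inl ⟨hx, hn⟩)

theorem mem_LL_right {n : ℕ} {x : G} (hx : x ∈ Q) (hn : x ^ n = 1) : x ∈ LL P Q n :=
  Subgroup.subset_closure (Or.inr ⟨hx, hn⟩)

theorem LL_mono {m n : ℕ} (hmn : m ∣ n) : LL P Q m ≤ LL P Q n := by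
  obtain ⟨k, rfl⟩ := hmn
  refine Subgroup.closure_mono ?_
  rintro x (⟨hx, hx1⟩ | ⟨hx, hx1⟩)
  · exact Or.inl ⟨hx, by rw [pow_mul, hx1, one_pow]⟩
  · exact Or.inr ⟨hx, by rw [pow_mul, hx1, one_pow]⟩

theorem LL_le (n : ℕ) : LL P Q n ≤ P ⊔ Q := by
  rw [LL, Subgroup.closure_le]
  rintro x (⟨hx, -⟩ | ⟨hx, -⟩)
  · exact le_sup_left (a := P) hx
  · exact le_sup_right (a := P) hx

/-- Every element of `P ⊔ Q` lies in one of the subgroups `LL P Q n`. -/
theorem Hyp.exists_LL (h : Hyp A A0 P B B0 Q) {g : G} (hg : g ∈ P ⊔ Q) :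
    ∃ n : ℕ, 0 < n ∧ g ∈ LL P Q n := by
  let R : Subgroup G :=
    { carrier := {g | ∃ n : ℕ, 0 < n ∧ g ∈ LL P Q n}
      one_mem' := ⟨1, Nat.one_pos, (LL P Q 1).one_mem⟩
      mul_mem' := by
        rintro x y ⟨n, hn, hx⟩ ⟨m, hm, hy⟩
        exact ⟨n * m, Nat.mul_pos hn hm, (LL P Q _).mul_mem (LL_mono (Nat.dvd_mul_right n m) hx)
          (LL_mono (Nat.dvd_mul_left m n) hy)⟩
      inv_mem' := by
        rintro x ⟨n, hn, hx⟩
        exact ⟨n, hn, (LL P Q n).inv_mem hx⟩ }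
  have hle : P ⊔ Q ≤ R := by
    refine sup_le ?_ ?_
    · intro p hp
      obtain ⟨n, hn, hn1⟩ := h.sa.dp.dc.torsion hp
      exact ⟨n, hn, mem_LL_left hp hn1⟩
    · intro q hq
      obtain ⟨n, hn, hn1⟩ := h.sb.dp.dc.torsion hq
      exact ⟨n, hn, mem_LL_right hq hn1⟩
  exact hle hg

/-- Conjugates of a torsion element inside a subgroup: one inclusion suffices. -/
theorem mem_Nz_of_torsion {L : Subgroup G} {a : G} {n : ℕ} (hn : 0 < n) (ha : a ^ n = 1)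
    (h : ∀ x ∈ L, a * x * a⁻¹ ∈ L) : a ∈ Nz L := by
  have hk : ∀ k : ℕ, ∀ x ∈ L, a ^ k * x * (a ^ k)⁻¹ ∈ L := by
    intro k
    induction k with
    | zero => intro x hx; simpa using hx
    | succ k ih =>
      intro x hx
      have h1 : a ^ (k + 1) * x * (a ^ (k + 1))⁻¹ = a ^ k * (a * x * a⁻¹) * (a ^ k)⁻¹ := by
        rw [pow_succ]; group
      rw [h1]
      exact ih _ (h x hx)
  intro x hx
  refine ⟨h x hx, ?_⟩
  have h1 : a ^ (n - 1) = a⁻¹ := by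
    rw [eq_inv_iff_mul_eq_one, ← pow_succ, Nat.sub_add_cancel hn, ha]
  have h2 := hk (n - 1) x hx
  rwa [h1, inv_inv] at h2

theorem DP.torsion' {A P : Subgroup G} (h : DP A P) {a : G} (ha : a ∈ A) :
    ∃ n : ℕ, 0 < n ∧ a ^ n = 1 := h.torsion ha

/-- The normaliser of `LL P Q n` is factorised. -/
theorem Hyp.LL_fac (h : Hyp A A0 P B B0 Q) {n : ℕ} {g a b : G} (ha : a ∈ A) (hb : b ∈ B)
    (hg : a * b = g) (hgN : g ∈ Nz (LL P Q n)) : a ∈ Nz (LL P Q n) ∧ b ∈ Nz (LL P Q n) := by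
  obtain ⟨m, hm, hm1⟩ := h.sa.dp.torsion ha
  have haN : a ∈ Nz (LL P Q n) := by
    refine mem_Nz_of_torsion hm hm1 ?_
    have h1 : LL P Q n ≤ (LL P Q n).comap (MulAut.conj a).toMonoidHom := by
      conv_lhs => rw [LL]
      rw [Subgroup.closure_le]
      rintro x (⟨hx, hx1⟩ | ⟨hx, hx1⟩)
      · show a * x * a⁻¹ ∈ LL P Q n
        refine mem_LL_left (h.sa.dp.le_Nz ha x hx).1 ?_
        rw [conj_pow, hx1, mul_one, mul_inv_cancel]
      · show a * x * a⁻¹ ∈ LL P Q n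
        have h2 : b⁻¹ * x * b ∈ LL P Q n := by
          refine mem_LL_right (h.sb.dp.le_Nz hb x hx).2 ?_
          have h4 := conj_pow (i := n) (a := b⁻¹) (b := x)
          rw [inv_inv] at h4
          rw [h4, hx1, mul_one, inv_mul_cancel]
        have h3 := (hgN _ h2).1
        have h4 : g * (b⁻¹ * x * b) * g⁻¹ = a * x * a⁻¹ := by rw [← hg]; group
        rwa [h4] at h3
    intro x hx
    exact h1 hx
  refine ⟨haN, ?_⟩
  have h1 := (Nz (LL P Q n)).mul_mem ((Nz (LL P Q n)).inv_mem haN) hgN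
  rwa [← hg, inv_mul_cancel_left] at h1

theorem le_Nz_self (L : Subgroup G) : L ≤ Nz L := by
  intro g hg x hx
  exact ⟨L.mul_mem (L.mul_mem hg hx) (L.inv_mem hg), L.mul_mem (L.mul_mem (L.inv_mem hg) hx) hg⟩

/-- If `P` and `Q` normalise `LL P Q n` then so does `A`. -/
theorem Cfg.LL_A (h : Cfg A A0 P B B0 Q) {n : ℕ} (hP : P ≤ Nz (LL P Q n))
    (hQ : Q ≤ Nz (LL P Q n)) : A ≤ Nz (LL P Q n) := by
  have hidx : (P ⊔ Q).index ≠ 0 :=
    index_sup_ne_zero h.hyp.fac h.hyp.sa.dp.fin h.hyp.sb.dp.fin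
  have hnorm : (P ⊔ Q).Normal := sup_normal h.hyp.sa.dp.dc h.hyp.sb.dp.dc hidx
  have hne : P ⊔ Q ≠ ⊥ := by
    intro h0
    apply h.ne
    intro x hx y hy
    have h1 : x ∈ P ⊔ Q := le_sup_left (a := P) hx
    rw [h0, Subgroup.mem_bot] at h1
    rw [h1, one_mul, mul_one]
  have htop := h.symm.sup_normal_top (P ⊔ Q) hnorm hne
  have hle : P ⊔ Q ≤ Nz (LL P Q n) := sup_le hP hQ
  intro a ha
  obtain ⟨m, hm, hm1⟩ := h.hyp.sa.dp.torsion ha
  refine mem_Nz_of_torsion hm hm1 ?_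
  have h1 : LL P Q n ≤ (LL P Q n).comap (MulAut.conj a).toMonoidHom := by
    conv_lhs => rw [LL]
    rw [Subgroup.closure_le]
    rintro x (⟨hx, hx1⟩ | ⟨hx, hx1⟩)
    · show a * x * a⁻¹ ∈ LL P Q n
      refine mem_LL_left (h.hyp.sa.dp.le_Nz ha x hx).1 ?_
      rw [conj_pow, hx1, mul_one, mul_inv_cancel]
    · show a * x * a⁻¹ ∈ LL P Q n
      have ha2 : a ∈ B ⊔ (P ⊔ Q) := by rw [htop]; exact Subgroup.mem_top a
      obtain ⟨b, hb, k, hk, hbk⟩ := Subgroup.mem_sup_of_normal_right.mp ha2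
      have hk2 : b * k * b⁻¹ ∈ P ⊔ Q := hnorm.conj_mem k hk b
      have h2 : b * x * b⁻¹ ∈ LL P Q n := by
        refine mem_LL_right (h.hyp.sb.dp.le_Nz hb x hx).1 ?_
        rw [conj_pow, hx1, mul_one, mul_inv_cancel]
      have h3 := (hle hk2 _ h2).1
      have h4 : b * k * b⁻¹ * (b * x * b⁻¹) * (b * k * b⁻¹)⁻¹ = a * x * a⁻¹ := by
        rw [← hbk]; group
      rwa [h4] at h3
  intro x hx
  exact h1 hx

theorem Cfg.LL_normal (h : Cfg A A0 P B B0 Q) {n : ℕ} (hP : P ≤ Nz (LL P Q n))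
    (hQ : Q ≤ Nz (LL P Q n)) : (LL P Q n).Normal := by
  have hA := h.LL_A hP hQ
  have hB : B ≤ Nz (LL P Q n) := by
    rw [← LL_symm]
    exact h.symm.LL_A (by rw [LL_symm]; exact hQ) (by rw [LL_symm]; exact hP)
  refine normal_of_Nz ?_
  rw [eq_top_iff]
  intro g _
  obtain ⟨a, ha, b, hb, rfl⟩ := h.hyp.fac g
  exact (Nz _).mul_mem (hA ha) (hB hb)

end

end H36.CH
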