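import Pool.Agent.H68.CK.Wfg1
import Pool.Agent.H36.CH2.Kaz

/-! The subgroups `LL P Q n` are normal or finite and soluble. -/

namespace H36.CH

open Subgroup Pointwise

/-- A subgroup of finite index of a finitely generated group which is abelian and torsion
makes the group finite. -/
theorem finite_of_fg_index {K : Type*} [Group K] (hfg : Group.FG K) (D : Subgroup K)
    (hidx : D.index ≠ 0) (hc : ∀ x ∈ D, ∀ y ∈ D, x * y = y * x)
    (ht : ∀ x ∈ D, ∃ n : ℕ, 0 < n ∧ x ^ n = 1) : Finite K := by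
  have hfi : D.FiniteIndex := ⟨hidx⟩
  have h1 : Group.FG ↥D := inferInstance
  rw [Group.fg_iff_subgroup_fg] at h1
  obtain ⟨S, hS⟩ := h1
  have hS2 : ∀ x ∈ S, x ∈ D := by
    intro x hx
    rw [← hS]
    exact Subgroup.subset_closure hx
  have h2 := finite_closure hc ht S hS2
  rw [hS] at h2
  have h3 : D.relIndex ⊤ ≠ 0 := by
    rw [Subgroup.relIndex_top_right]
    exact hidx
  have h4 := finite_of_relIndex h3 (by rw [inf_top_eq]; exact Set.toFinite _)
  rw [Subgroup.coe_top] at h4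
  exact Set.finite_univ_iff.mp h4

variable {G : Type} [Group G] {A A0 P B B0 Q : Subgroup G}

theorem Hyp.LL_fg (h : Hyp A A0 P B B0 Q) {n : ℕ} (hn : 0 < n) : (LL P Q n).FG :=
  ⟨(h.TT_finite hn).toFinset, by rw [Set.Finite.coe_toFinset]; rfl⟩

/-- The divisible part of the intersection with a subgroup. -/
theorem exists_part {A A0 P : Subgroup G} (h : Side A A0 P) (F : Subgroup G) :
    ∃ D : Subgroup G, DP (A ⊓ F) D ∧ D ≤ P := by
  obtain ⟨D, hD⟩ : ∃ D : Subgroup G, DP (F ⊓ P) D := by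
    refine exists_DP ?_ (art_mono inf_le_right h.dp.dc.art)
    intro x hx z hz
    exact h.dp.dc.comm x hx.2 z hz.2
  refine ⟨D, ⟨hD.dc, ?_, ?_⟩, hD.le.trans inf_le_right⟩
  · rw [inf_comm A F]
    exact hD.le.trans (inf_le_inf_left F h.dp.le)
  · rw [inf_comm A F]
    refine Subgroup.relIndex_ne_zero_trans hD.fin ?_
    rw [inf_comm F P, inf_comm F A]
    exact Subgroup.relIndex_inter_ne_zero h.dp.fin F

theorem Cfg.LL_cases (h : Cfg A A0 P B B0 Q) (hm : Mini A P B Q) {n : ℕ} (hn : 0 < n) :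
    (LL P Q n).Normal ∨ ((LL P Q n : Set G).Finite ∧ Group.IsSolvable ↥(LL P Q n)) := by
  set L := LL P Q n with hL
  set F := Nz L with hF
  obtain ⟨D, hD, hDP⟩ := exists_part h.hyp.sa F
  obtain ⟨E, hE, hEQ⟩ := exists_part h.hyp.sb F
  have hfacF : ∀ g ∈ F, ∃ a ∈ A ⊓ F, ∃ b ∈ B ⊓ F, g = a * b := by
    intro g hg
    obtain ⟨a, ha, b, hb, rfl⟩ := h.hyp.fac g
    obtain ⟨h1, h2⟩ := h.hyp.LL_fac ha hb rfl hg
    exact ⟨a, ⟨ha, h1⟩, b, ⟨hb, h2⟩, rfl⟩
  by_cases hcase : D = P ∧ E = Q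
  · left
    refine h.LL_normal ?_ ?_
    · have h1 : D ≤ F := hD.le.trans inf_le_right
      exact le_trans hcase.1.ge h1
    · have h1 : E ≤ F := hE.le.trans inf_le_right
      exact le_trans hcase.2.ge h1
  · right
    have hlt : D < P ∨ E < Q := by
      by_cases h1 : D = P
      · right
        exact lt_of_le_of_ne hEQ (fun h2 => hcase ⟨h1, h2⟩)
      · left
        exact lt_of_le_of_ne hDP h1
    have hcomm := hm F (A ⊓ F) (B ⊓ F) D E inf_le_left inf_le_left inf_le_right inf_le_right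
      hfacF hD hE hDP hEQ hlt
    have hH := Hyp.sub (inf_le_right : A ⊓ F ≤ F) (inf_le_right : B ⊓ F ≤ F) hfacF
      (h.hyp.sa.restrict inf_le_left hD) (h.hyp.sb.restrict inf_le_left hE)
    obtain ⟨⟨D', hD'n, hD'c, hD'd, hD'i, hD'a⟩, hsol⟩ := conclude hH (by
      intro x hx y hy
      exact Subtype.ext (hcomm x hx y hy))
    have hsolF := hsol finiteCase
    have hLF : L ≤ F := le_Nz_self L
    have hsolL : Group.IsSolvable ↥L :=
      Group.isSolvable_of_isSolvable_injective (Subgroup.inclusion_injective hLF)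
    refine ⟨?_, hsolL⟩
    have hfg : Group.FG ↥L := by
      rw [Group.fg_iff_subgroup_fg]
      exact h.hyp.LL_fg hn
    have hfin : Finite ↥L := by
      refine finite_of_fg_index hfg (D'.comap (Subgroup.inclusion hLF)) ?_ ?_ ?_
      · rw [Subgroup.index_comap]
        intro h0
        exact hD'i (Subgroup.index_eq_zero_of_relIndex_eq_zero h0)
      · intro x hx y hy
        apply Subgroup.inclusion_injective hLF
        rw [map_mul, map_mul]
        exact hD'c _ hx _ hy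
      · intro x hx
        have hDC : DC D' := ⟨hD'c, hD'd, hD'a⟩
        obtain ⟨m, hm0, hm1⟩ := hDC.torsion (x := Subgroup.inclusion hLF x) hx
        refine ⟨m, hm0, ?_⟩
        apply Subgroup.inclusion_injective hLF
        rw [map_pow, map_one]
        exact hm1
    exact Set.toFinite _

/-- Solubility of finite quotients. -/
theorem Hyp.quot_solvable (h : Hyp A A0 P B B0 Q) (N : Subgroup G) [N.Normal]
    (hN : N.index ≠ 0) : Group.IsSolvable (G ⧸ N) := by
  have hF : Finite (G ⧸ N) := by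
    have : N.FiniteIndex := ⟨hN⟩
    infer_instance
  have hH := h.map (QuotientGroup.mk' N) (QuotientGroup.mk'_surjective _)
  exact finiteCase (G ⧸ N) _ _ hH.fac
    ⟨_, hH.sa.le0, hH.sa.comm0, hH.sa.index_le⟩ ⟨_, hH.sb.le0, hH.sb.comm0, hH.sb.index_le⟩

/-- If all the subgroups `LL P Q n` are finite then the group is locally (finite and soluble). -/
theorem Cfg.lfs (h : Cfg A A0 P B B0 Q) (hm : Mini A P B Q)
    (hall : ∀ n : ℕ, 0 < n → (LL P Q n : Set G).Finite) (S : Finset G) :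
    ∃ K : Subgroup G, (∀ x ∈ S, x ∈ K) ∧ (K : Set G).Finite ∧ Group.IsSolvable ↥K := by
  classical
  have hidx : (P ⊔ Q).index ≠ 0 :=
    index_sup_ne_zero h.hyp.fac h.hyp.sa.dp.fin h.hyp.sb.dp.fin
  have hnorm : (P ⊔ Q).Normal := sup_normal h.hyp.sa.dp.dc h.hyp.sb.dp.dc hidx
  have hsolLL : ∀ n : ℕ, 0 < n → Group.IsSolvable ↥(LL P Q n) := by
    intro n hn
    rcases h.LL_cases hm hn with h1 | h1
    · have h2 := h.finite_normal h1 (hall n hn)
      rw [h2]
      exact Group.isSolvable_of_comm (fun a b => Subtype.ext (by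
        have ha := a.2
        have hb := b.2
        rw [Subgroup.mem_bot] at ha hb
        rw [Subgroup.coe_mul, Subgroup.coe_mul, ha, hb]))
    · exact h1.2
  -- finite subsets of `P ⊔ Q`
  have hdir : ∀ T : Finset G, (∀ x ∈ T, x ∈ P ⊔ Q) → ∃ n : ℕ, 0 < n ∧ ∀ x ∈ T, x ∈ LL P Q n := by
    intro T
    induction T using Finset.induction_on with
    | empty => intro _; exact ⟨1, Nat.one_pos, fun x hx => absurd hx (Finset.notMem_empty x)⟩
    | insert a T ha ih =>
      intro hT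
      obtain ⟨n, hn, hn1⟩ := ih (fun x hx => hT x (Finset.mem_insert_of_mem hx))
      obtain ⟨m, hm0, hm1⟩ := h.hyp.exists_LL (hT a (Finset.mem_insert_self a T))
      refine ⟨n * m, Nat.mul_pos hn hm0, ?_⟩
      intro x hx
      rcases Finset.mem_insert.mp hx with rfl | hx
      · exact LL_mono (Nat.dvd_mul_left m n) hm1
      · exact LL_mono (Nat.dvd_mul_right n m) (hn1 x hx)
  set K := Subgroup.closure (S : Set G) with hK
  refine ⟨K, fun x hx => Subgroup.subset_closure hx, ?_⟩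
  have hfgK : Group.FG ↥K := by
    rw [Group.fg_iff_subgroup_fg]
    exact ⟨S, rfl⟩
  have hrel : (P ⊔ Q).relIndex K ≠ 0 := fun h0 =>
    hidx (Subgroup.index_eq_zero_of_relIndex_eq_zero h0)
  have hfi : ((P ⊔ Q).subgroupOf K).FiniteIndex := ⟨hrel⟩
  have hfg2 : Group.FG ↥((P ⊔ Q).subgroupOf K) := inferInstance
  rw [Group.fg_iff_subgroup_fg] at hfg2
  obtain ⟨T, hT⟩ := hfg2
  obtain ⟨n, hn, hn1⟩ := hdir (T.image (fun x : ↥K => (x : G))) (by
    intro x hx
    rw [Finset.mem_image] at hx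
    obtain ⟨y, hy, rfl⟩ := hx
    have h1 : y ∈ (P ⊔ Q).subgroupOf K := by
      rw [← hT]
      exact Subgroup.subset_closure hy
    exact h1)
  have hle : K ⊓ (P ⊔ Q) ≤ LL P Q n := by
    rintro x ⟨hx1, hx2⟩
    have h1 : (⟨x, hx1⟩ : ↥K) ∈ (P ⊔ Q).subgroupOf K := hx2
    have h2 : (P ⊔ Q).subgroupOf K ≤ (LL P Q n).subgroupOf K := by
      rw [← hT, Subgroup.closure_le]
      intro y hy
      exact hn1 _ (Finset.mem_image_of_mem _ hy)
    exact h2 h1
  have hfinKH : ((K ⊓ (P ⊔ Q) : Subgroup G) : Set G).Finite := (hall n hn).subset hle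
  refine ⟨finite_of_relIndex hrel (by rw [inf_comm]; exact hfinKH), ?_⟩
  have hs1 : Group.IsSolvable ↥(LL P Q n) := hsolLL n hn
  have hs2 : Group.IsSolvable ↥(K ⊓ (P ⊔ Q)) :=
    Group.isSolvable_of_isSolvable_injective (Subgroup.inclusion_injective hle)
  have hs3 : Group.IsSolvable (G ⧸ (P ⊔ Q)) := h.hyp.quot_solvable (P ⊔ Q) hidx
  refine Group.isSolvable_of_ker_le_range (Subgroup.inclusion (inf_le_left : K ⊓ (P ⊔ Q) ≤ K))
    ((QuotientGroup.mk' (P ⊔ Q)).comp K.subtype) ?_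
  intro x hx
  rw [MonoidHom.mem_ker] at hx
  have h1 : (x : G) ∈ P ⊔ Q := by
    rw [← QuotientGroup.eq_one_iff]
    exact hx
  exact ⟨⟨x, x.2, h1⟩, rfl⟩

end H36.CH
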