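import Pool.Agent.H68.CK.Wfg1

/-! The minimal normal subgroup is not abelian. -/

namespace H36.CH

open Subgroup Pointwise
open scoped commutatorElement

section

variable {G : Type*} [Group G] {A A0 P B B0 Q : Subgroup G}

/-- Elements of the normal closure of `c` lie in the subgroup generated by the conjugates of `c`
under a large subgroup. -/
theorem exists_fin_conj (c x : G) (hx : x ∈ Subgroup.normalClosure {c}) :
    ∃ T : Finset G, ∀ K : Subgroup G, (∀ t ∈ T, t ∈ K) →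
      x ∈ Subgroup.closure {y | ∃ k ∈ K, y = k * c * k⁻¹} := by
  classical
  rw [Subgroup.normalClosure] at hx
  induction hx using Subgroup.closure_induction with
  | mem y hy =>
    rw [Group.mem_conjugatesOfSet_iff] at hy
    obtain ⟨z, hz, hzy⟩ := hy
    rw [Set.mem_singleton_iff] at hz
    subst hz
    obtain ⟨g, hg⟩ := isConj_iff.mp hzy
    refine ⟨{g}, fun K hK => Subgroup.subset_closure ⟨g, hK g (Finset.mem_singleton_self g), ?_⟩⟩
    exact hg.symm
  | one => exact ⟨∅, fun K _ => Subgroup.one_mem _⟩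
  | mul y z _ _ ihy ihz =>
    obtain ⟨T, hT⟩ := ihy
    obtain ⟨T', hT'⟩ := ihz
    refine ⟨T ∪ T', fun K hK => Subgroup.mul_mem _ (hT K ?_) (hT' K ?_)⟩
    · intro t ht
      exact hK t (Finset.mem_union_left _ ht)
    · intro t ht
      exact hK t (Finset.mem_union_right _ ht)
  | inv y _ ihy =>
    obtain ⟨T, hT⟩ := ihy
    exact ⟨T, fun K hK => Subgroup.inv_mem _ (hT K hK)⟩

/-- McLain's argument. -/
theorem Cfg.WW_comm (h : Cfg A A0 P B B0 Q)
    (hlfs : ∀ S : Finset G, ∃ K : Subgroup G, (∀ x ∈ S, x ∈ K) ∧ (K : Set G).Finite ∧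
      Group.IsSolvable ↥K) : ∀ a ∈ WW P Q, ∀ b ∈ WW P Q, a * b = b * a := by
  classical
  intro a ha b hb
  by_contra hne
  set c := a * b * a⁻¹ * b⁻¹ with hc
  have hc1 : c ≠ 1 := by
    intro h1
    apply hne
    have h2 : a * b = c * (b * a) := by rw [hc]; group
    rw [h2, h1, one_mul]
  have hN : (Subgroup.normalClosure {c}).Normal := Subgroup.normalClosure_normal
  have hN1 : Subgroup.normalClosure {c} ≠ ⊥ := by
    intro h0
    have h1 : c ∈ Subgroup.normalClosure {c} := Subgroup.subset_normalClosure rfl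
    rw [h0, Subgroup.mem_bot] at h1
    exact hc1 h1
  have hle := h.WW_le hN hN1
  obtain ⟨T, hT⟩ := exists_fin_conj c a (hle ha)
  obtain ⟨T', hT'⟩ := exists_fin_conj c b (hle hb)
  obtain ⟨K, hK, -, hKs⟩ := hlfs (T ∪ T' ∪ {a, b})
  have haK : a ∈ K := hK a (by simp)
  have hbK : b ∈ K := hK b (by simp)
  set N := Subgroup.closure {y | ∃ k ∈ K, y = k * c * k⁻¹} with hNdef
  have haN : a ∈ N := hT K (fun t ht => hK t (by simp [ht]))
  have hbN : b ∈ N := hT' K (fun t ht => hK t (by simp [ht]))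
  have hcK : c ∈ K :=
    K.mul_mem (K.mul_mem (K.mul_mem haK hbK) (K.inv_mem haK)) (K.inv_mem hbK)
  have hNK : N ≤ K := by
    rw [hNdef, Subgroup.closure_le]
    rintro _ ⟨k, hk, rfl⟩
    exact K.mul_mem (K.mul_mem hk hcK) (K.inv_mem hk)
  have hconj : ∀ k ∈ K, ∀ x ∈ N, k * x * k⁻¹ ∈ N := by
    intro k hk
    have h1 : N ≤ N.comap (MulAut.conj k).toMonoidHom := by
      conv_lhs => rw [hNdef]
      rw [Subgroup.closure_le]
      rintro _ ⟨k', hk', rfl⟩
      show k * (k' * c * k'⁻¹) * k⁻¹ ∈ N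
      refine Subgroup.subset_closure ⟨k * k', K.mul_mem hk hk', ?_⟩
      group
    intro x hx
    exact h1 hx
  have hcN : c ∈ N := Subgroup.subset_closure ⟨1, K.one_mem, by group⟩
  have hperf : N ≤ ⁅N, N⁆ := by
    conv_lhs => rw [hNdef]
    rw [Subgroup.closure_le]
    rintro _ ⟨k, hk, rfl⟩
    have h1 : k * c * k⁻¹ = ⁅k * a * k⁻¹, k * b * k⁻¹⁆ := by
      rw [commutatorElement_def, hc]; group
    rw [h1]
    exact Subgroup.commutator_mem_commutator (hconj k hk a haN) (hconj k hk b hbN)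
  have hNs : Group.IsSolvable ↥N :=
    Group.isSolvable_of_isSolvable_injective (Subgroup.inclusion_injective hNK)
  have hnt : Nontrivial ↥N := by
    refine ⟨⟨⟨c, hcN⟩, 1, ?_⟩⟩
    intro h1
    exact hc1 (congrArg Subtype.val h1)
  have h2 := Group.IsSolvable.commutator_lt_top_of_nontrivial (G := ↥N)
  have h3 : (_root_.commutator ↥N).map N.subtype = ⁅N, N⁆ := Subgroup.map_subtype_commutator N
  apply h2.ne
  rw [eq_top_iff]
  intro x _
  have h4 : (x : G) ∈ (_root_.commutator ↥N).map N.subtype := by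
    rw [h3]; exact hperf x.2
  obtain ⟨y, hy, hyx⟩ := h4
  have h5 : y = x := Subtype.ext hyx
  rw [← h5]; exact hy

/-- A subgroup of `W` normalised by `A` is normal if `W` is abelian. -/
theorem Cfg.normal_of_A (h : Cfg A A0 P B B0 Q)
    (hc : ∀ a ∈ WW P Q, ∀ b ∈ WW P Q, a * b = b * a) {C : Subgroup G} (hC : C ≤ WW P Q)
    (hA : A ≤ Nz C) : C.Normal := by
  have htop := h.sup_normal_top (WW P Q) WW_normal h.WW_ne
  refine normal_of_Nz ?_
  rw [eq_top_iff, ← htop]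
  refine sup_le hA ?_
  intro w hw x hx
  have h1 := hc w hw x (hC hx)
  refine ⟨?_, ?_⟩
  · rw [h1, mul_inv_cancel_right]; exact hx
  · rw [mul_assoc, ← h1, inv_mul_cancel_left]; exact hx

/-- Subgroups of `A0` normal in `A` have no fixed points in an abelian minimal normal subgroup. -/
theorem Cfg.no_fix (h : Cfg A A0 P B B0 Q)
    (hc : ∀ a ∈ WW P Q, ∀ b ∈ WW P Q, a * b = b * a) {X : Subgroup G} (hX : X ≤ A0)
    (hX1 : X ≠ ⊥) (hA : A ≤ Nz X) {w : G} (hw : w ∈ WW P Q) (hwX : ∀ x ∈ X, x * w = w * x) :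
    w = 1 := by
  have htop := h.sup_normal_top (WW P Q) WW_normal h.WW_ne
  let C : Subgroup G := WW P Q ⊓ Subgroup.centralizer (X : Set G)
  have hCA : A ≤ Nz C := by
    intro a ha x hx
    obtain ⟨hx1, hx2⟩ := Subgroup.mem_inf.mp hx
    rw [Subgroup.mem_centralizer_iff] at hx2
    refine ⟨Subgroup.mem_inf.mpr ⟨WW_normal.conj_mem x hx1 a, ?_⟩,
      Subgroup.mem_inf.mpr ⟨?_, ?_⟩⟩
    · rw [Subgroup.mem_centralizer_iff]
      intro y hy
      have h1 := hx2 _ (hA ha y hy).2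
      calc y * (a * x * a⁻¹) = a * ((a⁻¹ * y * a) * x) * a⁻¹ := by group
        _ = a * (x * (a⁻¹ * y * a)) * a⁻¹ := by rw [h1]
        _ = _ := by group
    · have h2 := WW_normal (P := P) (Q := Q) |>.conj_mem x hx1 a⁻¹
      rwa [inv_inv] at h2
    · rw [Subgroup.mem_centralizer_iff]
      intro y hy
      have h1 := hx2 _ (hA ha y hy).1
      calc y * (a⁻¹ * x * a) = a⁻¹ * ((a * y * a⁻¹) * x) * a := by group
        _ = a⁻¹ * (x * (a * y * a⁻¹)) * a := by rw [h1]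
        _ = _ := by group
  have hCn : C.Normal := h.normal_of_A hc inf_le_left hCA
  by_contra hw1
  have hC1 : C ≠ ⊥ := by
    intro h0
    have h1 : w ∈ C := Subgroup.mem_inf.mpr ⟨hw, by
      rw [Subgroup.mem_centralizer_iff]
      exact hwX⟩
    rw [h0, Subgroup.mem_bot] at h1
    exact hw1 h1
  have hle := h.WW_le hCn hC1
  apply h.Nz_sub hX hX1
  rw [eq_top_iff, ← htop]
  refine sup_le hA ?_
  intro v hv x hx
  have h1 := (Subgroup.mem_inf.mp (hle hv)).2
  rw [Subgroup.mem_centralizer_iff] at h1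
  have h2 : x * v = v * x := h1 x hx
  refine ⟨?_, ?_⟩
  · rw [← h2, mul_inv_cancel_right]; exact hx
  · rw [mul_assoc, h2, inv_mul_cancel_left]; exact hx

/-- An abelian minimal normal subgroup meets `B` trivially. -/
theorem Cfg.WW_inf_B (h : Cfg A A0 P B B0 Q)
    (hc : ∀ a ∈ WW P Q, ∀ b ∈ WW P Q, a * b = b * a) {w : G} (hw : w ∈ WW P Q) (hwB : w ∈ B) :
    w = 1 := by
  have htop := h.symm.sup_normal_top (WW P Q) WW_normal h.WW_ne
  by_contra hw1
  have hn : (WW P Q ⊓ B).Normal := by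
    refine normal_of_Nz ?_
    rw [eq_top_iff, ← htop]
    refine sup_le ?_ ?_
    · intro b hb x hx
      have h2 := WW_normal (P := P) (Q := Q) |>.conj_mem x hx.1 b⁻¹
      rw [inv_inv] at h2
      exact ⟨⟨WW_normal.conj_mem x hx.1 b, B.mul_mem (B.mul_mem hb hx.2) (B.inv_mem hb)⟩,
        h2, B.mul_mem (B.mul_mem (B.inv_mem hb) hx.2) hb⟩
    · intro v hv x hx
      have h1 := hc v hv x hx.1
      refine ⟨?_, ?_⟩
      · rw [h1, mul_inv_cancel_right]; exact hx
      · rw [mul_assoc, ← h1, inv_mul_cancel_left]; exact hx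
  have hne : WW P Q ⊓ B ≠ ⊥ := by
    intro h0
    have h1 : w ∈ WW P Q ⊓ B := ⟨hw, hwB⟩
    rw [h0, Subgroup.mem_bot] at h1
    exact hw1 h1
  have hle := (h.WW_le hn hne).trans inf_le_right
  apply h.symm.Nz_ne_top
  rw [eq_top_iff, ← htop]
  exact sup_le h.hyp.sb.dp.le_Nz (hle.trans h.hyp.sb.dp.le_Nz)

/-- The elements of `P` of order dividing `n`. -/
def OmP (P : Subgroup G) (hc : ∀ x ∈ P, ∀ y ∈ P, x * y = y * x) (n : ℕ) : Subgroup G where
  carrier := {x | x ∈ P ∧ x ^ n = 1}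
  one_mem' := ⟨P.one_mem, one_pow n⟩
  mul_mem' := by
    rintro x y ⟨hx, hx1⟩ ⟨hy, hy1⟩
    refine ⟨P.mul_mem hx hy, ?_⟩
    rw [(show Commute x y from hc x hx y hy).mul_pow, hx1, hy1, one_mul]
  inv_mem' := by
    rintro x ⟨hx, hx1⟩
    exact ⟨P.inv_mem hx, by rw [inv_pow, hx1, inv_one]⟩

theorem mem_OmP {P : Subgroup G} {hc : ∀ x ∈ P, ∀ y ∈ P, x * y = y * x} {n : ℕ} {x : G} :
    x ∈ OmP P hc n ↔ x ∈ P ∧ x ^ n = 1 := Iff.rfl

theorem OmP_Nz {P : Subgroup G} (hc : ∀ x ∈ P, ∀ y ∈ P, x * y = y * x) (n : ℕ) {A : Subgroup G}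
    (hA : A ≤ Nz P) : A ≤ Nz (OmP P hc n) := by
  intro a ha x hx
  rw [mem_OmP] at hx
  obtain ⟨h1, h2⟩ := hA ha x hx.1
  refine ⟨⟨h1, ?_⟩, ⟨h2, ?_⟩⟩
  · rw [conj_pow, hx.2, mul_one, mul_inv_cancel]
  · have h3 := conj_pow (i := n) (a := a⁻¹) (b := x)
    rw [inv_inv] at h3
    rw [h3, hx.2, mul_one, inv_mul_cancel]

end

end H36.CH
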